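import Mathlib

/-!
# UCR: definitions
-/

set_option autoImplicit false

namespace UCR

/-- the subfield of the complex numbers generated by all roots of unity -/
noncomputable def Qab : Subfield ℂ := Subfield.closure {z : ℂ | ∃ N : ℕ, 0 < N ∧ z ^ N = 1}

/-- for `B` without `0`: the products of a root of unity and an element of `B` -/
def dirs (B : Set ℂ) : Set ℂ := {u | ∃ b ∈ B, ∃ N : ℕ, 0 < N ∧ u ^ N = b ^ N}

/-- the points `q` such that `p - q ∈ D` for at least three points `p` of `P` -/
def centres (D : Set ℂ) (P : Finset ℂ) : Set ℂ := {q : ℂ | 3 ≤ ({p : ℂ | p ∈ P ∧ p - q ∈ D}).ncard}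

end UCR
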