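import Mathlib
import Pool.Agent.UCR.Defs

/-!
# UCR: definitions for points in one coset of a lattice
-/

set_option autoImplicit false

namespace UCR

/-- the centres of the unit circles which pass through three distinct points of `P` whose differences lie
in `V` -/
def cosetCentres (V : Set ℂ) (P : Finset ℂ) : Set ℂ :=
  {q : ℂ | ∃ p₁ ∈ P, ∃ p₂ ∈ P, ∃ p₃ ∈ P, p₁ ≠ p₂ ∧ p₂ ≠ p₃ ∧ p₁ ≠ p₃ ∧
    ‖p₁ - q‖ = 1 ∧ ‖p₂ - q‖ = 1 ∧ ‖p₃ - q‖ = 1 ∧ p₁ - p₂ ∈ V ∧ p₂ - p₃ ∈ V}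

end UCR
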