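import Mathlib

/-!
# UCR: infinitely many algebraically independent unit complex numbers
-/

set_option autoImplicit false

namespace UCR

theorem circle_uncountable : ¬ {u : ℂ | ‖u‖ = 1}.Countable := by
  intro h
  have h1 := Set.Countable.preimage_circleMap h 0 (R := 1) one_ne_zero
  have h2 : circleMap 0 1 ⁻¹' {u : ℂ | ‖u‖ = 1} = Set.univ := by
    ext θ
    simp [circleMap]
  rw [h2] at h1
  exact Cardinal.not_countable_real h1

theorem exists_family (K : Type*) [Field K] [Algebra K ℝ] [Countable K] :
    ∃ z : ℕ → ℂ, (∀ i, ‖z i‖ = 1) ∧ AlgebraicIndependent K z := by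
  have h0 : AlgebraicIndepOn K id (∅ : Set ℂ) :=
    (algebraicIndependent_empty_iff K ℂ).2 (algebraMap K ℂ).injective
  obtain ⟨u, _, hu⟩ := exists_maximal_algebraicIndependent (R := K) (∅ : Set ℂ) {u : ℂ | ‖u‖ = 1}
    (Set.empty_subset _) h0
  obtain ⟨⟨hu1, hu2⟩, hu3⟩ := hu
  have hinf : u.Infinite := by
    intro hfin
    apply circle_uncountable
    have hcount : Countable (Algebra.adjoin K (id '' u)) := by
      have h1 : Algebra.adjoin K (id '' u) =
          (MvPolynomial.aeval (fun x : u => (x : ℂ)) : MvPolynomial u K →ₐ[K] ℂ).range := by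
        rw [← Algebra.adjoin_range_eq_range_aeval]
        congr 1
        ext x
        simp
      rw [h1]
      have : Finite u := hfin
      have : Countable (MvPolynomial u K) := by
        rw [← Cardinal.mk_le_aleph0_iff]
        refine (MvPolynomial.cardinalMk_le_max_lift (σ := u) (R := K)).trans ?_
        refine max_le (max_le ?_ ?_) le_rfl
        · rw [Cardinal.lift_le_aleph0]
          exact Cardinal.mk_le_aleph0
        · rw [Cardinal.lift_le_aleph0]
          exact Cardinal.mk_le_aleph0
      have h2 : (Set.range (MvPolynomial.aeval (fun x : u => (x : ℂ)) :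
          MvPolynomial u K →ₐ[K] ℂ)).Countable := Set.countable_range _
      exact h2.to_subtype
    refine (hfin.countable.union (Algebraic.countable (Algebra.adjoin K (id '' u)) ℂ)).mono ?_
    intro x hx
    by_cases hxu : x ∈ u
    · exact Or.inl hxu
    · right
      by_contra htr
      have h2 : AlgebraicIndepOn K id (insert x u) :=
        (AlgebraicIndepOn.insert_iff hxu).2 ⟨hu1, htr⟩
      have h3 := hu3 (y := insert x u) ⟨h2, Set.insert_subset hx hu2⟩ (Set.subset_insert x u)
      exact hxu (h3 (Set.mem_insert x u))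
  set f : ℕ ↪ u := hinf.natEmbedding with hf
  refine ⟨fun n => (f n : ℂ), fun n => hu2 (f n).2, ?_⟩
  exact hu1.comp f f.injective

end UCR
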