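import Mathlib

/-!
# UCR: unit circles with radii from a sparse set of directions (MP_8a44e4_co): the abstract core

`DirSys D rel b`: a symmetric set `D` of directions in an abelian group with a relation `rel` such that every
minimal vanishing sum of at most `8` directions consists of pairwise related directions, and every direction is
related to at most `b` directions.
Theorem `DirSys.card_le`: if every `q ∈ Q` has at least three neighbours `p ∈ P` (`p - q ∈ D`) then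
`|Q| ≤ 100 b ^ 3 |P| ^ (3/2)`.
-/

set_option autoImplicit false

namespace UCR

open Finset

/-- a symmetric set of directions with controlled short relations -/
structure DirSys {G : Type*} [AddCommGroup G] (D : Set G) (rel : G → G → Prop) (b : ℕ) : Prop where
  neg_mem : ∀ u ∈ D, -u ∈ D
  zero_not : (0 : G) ∉ D
  refl : ∀ u ∈ D, rel u u
  symm : ∀ u v, rel u v → rel v u
  negl : ∀ u v, rel u v → rel (-u) v
  fin : ∀ u ∈ D, ∃ F : Finset G, F.card ≤ b ∧ ∀ v ∈ D, rel u v → v ∈ F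
  min : ∀ (ι : Type) [DecidableEq ι] (I : Finset ι) (f : ι → G), I.card ≤ 8 → (∀ i ∈ I, f i ∈ D) →
    ∑ i ∈ I, f i = 0 → (∀ J ⊂ I, J.Nonempty → ∑ i ∈ J, f i ≠ 0) →
    ∀ i ∈ I, ∀ j ∈ I, rel (f i) (f j)

/-- no vanishing subsum -/
def Nd {G : Type*} [AddCommGroup G] {ι : Type} (f : ι → G) : Prop :=
  ∀ J : Finset ι, J.Nonempty → ∑ i ∈ J, f i ≠ 0

section basic

variable {G : Type*} [AddCommGroup G]

theorem exists_min_sub {ι : Type} [DecidableEq ι] (I : Finset ι) (f : ι → G)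
    (h0 : ∑ i ∈ I, f i = 0) (i0 : ι) (hi0 : i0 ∈ I) :
    ∃ J ⊆ I, i0 ∈ J ∧ ∑ i ∈ J, f i = 0 ∧ ∀ J' ⊂ J, J'.Nonempty → ∑ i ∈ J', f i ≠ 0 := by
  classical
  set A : Finset (Finset ι) := I.powerset.filter (fun J => i0 ∈ J ∧ ∑ i ∈ J, f i = 0) with hA
  have hne : A.Nonempty := ⟨I, by
    rw [hA, mem_filter, mem_powerset]
    exact ⟨Subset.refl _, hi0, h0⟩⟩
  obtain ⟨J, hJ, hmin⟩ := A.exists_min_image (fun J => J.card) hne
  rw [hA, mem_filter, mem_powerset] at hJ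
  obtain ⟨hJI, hiJ, hJ0⟩ := hJ
  refine ⟨J, hJI, hiJ, hJ0, ?_⟩
  intro J' hJ' hJ'ne hJ'0
  by_cases h : i0 ∈ J'
  · have h1 : J' ∈ A := by
      rw [hA, mem_filter, mem_powerset]
      exact ⟨hJ'.1.trans hJI, h, hJ'0⟩
    have h2 := hmin J' h1
    have h3 := card_lt_card hJ'
    omega
  · have h1 : J \ J' ∈ A := by
      rw [hA, mem_filter, mem_powerset]
      refine ⟨sdiff_subset.trans hJI, mem_sdiff.2 ⟨hiJ, h⟩, ?_⟩
      have := sum_sdiff (f := f) hJ'.1
      rw [hJ'0, hJ0, add_zero] at this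
      exact this
    have h2 := hmin _ h1
    have h3 : (J \ J').card = J.card - J'.card := card_sdiff_of_subset hJ'.1
    have h4 : 0 < J'.card := card_pos.2 hJ'ne
    have h5 := card_le_card hJ'.1
    omega

variable {D : Set G} {rel : G → G → Prop} {b : ℕ}

theorem DirSys.negr (h : DirSys D rel b) {u v : G} (huv : rel u v) : rel u (-v) :=
  h.symm _ _ (h.negl _ _ (h.symm _ _ huv))

theorem DirSys.negl' (h : DirSys D rel b) {u v : G} (huv : rel (-u) v) : rel u v := by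
  have := h.negl _ _ huv
  rwa [neg_neg] at this

theorem DirSys.negr' (h : DirSys D rel b) {u v : G} (huv : rel u (-v)) : rel u v := by
  have := h.negr huv
  rwa [neg_neg] at this

theorem DirSys.ne_zero (h : DirSys D rel b) {u : G} (hu : u ∈ D) : u ≠ 0 := by
  rintro rfl
  exact h.zero_not hu

/-- a set of directions without vanishing subsum dominates another one with the same sum -/
theorem DirSys.dom (h : DirSys D rel b) {k : ℕ} (hk : k ≤ 4) (s t : Fin k → G)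
    (hs : ∀ i, s i ∈ D) (ht : ∀ i, t i ∈ D) (htn : Nd t)
    (hst : ∑ i, s i = ∑ i, t i) (j : Fin k) : ∃ i, rel (s i) (t j) := by
  classical
  set f : Fin k ⊕ Fin k → G := Sum.elim s (fun i => -t i) with hf
  have h0 : ∑ i ∈ (univ : Finset (Fin k ⊕ Fin k)), f i = 0 := by
    rw [Fintype.sum_sum_type]
    simp only [hf, Sum.elim_inl, Sum.elim_inr, sum_neg_distrib]
    rw [hst]
    abel
  obtain ⟨J, _, hjJ, hJ0, hJmin⟩ := exists_min_sub univ f h0 (Sum.inr j) (mem_univ _)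
  have hfD : ∀ i ∈ J, f i ∈ D := by
    intro i _
    rcases i with i | i
    · exact hs i
    · exact h.neg_mem _ (ht i)
  have hcard : J.card ≤ 8 := by
    have := card_le_univ J
    rw [Fintype.card_sum, Fintype.card_fin] at this
    omega
  have hpair := h.min _ J f hcard hfD hJ0 hJmin
  -- `J` contains an element of the first type
  by_contra hcon
  have hno : ∀ i, Sum.inl i ∉ J := by
    intro i hi
    apply hcon
    refine ⟨i, ?_⟩
    have := hpair _ hi _ hjJ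
    simp only [hf, Sum.elim_inl, Sum.elim_inr] at this
    exact h.negr' this
  set J2 : Finset (Fin k) := univ.filter (fun i => Sum.inr i ∈ J) with hJ2
  have h1 : J = J2.map Function.Embedding.inr := by
    ext i
    rcases i with i | i
    · simp [hno i]
    · simp [hJ2]
  rw [h1, sum_map] at hJ0
  simp only [hf, Function.Embedding.inr_apply, Sum.elim_inr, sum_neg_distrib, neg_eq_zero] at hJ0
  exact htn J2 ⟨j, by simp [hJ2, hjJ]⟩ hJ0

/-- the number of tuples without vanishing subsum and with a given sum -/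
theorem DirSys.card_fiber (h : DirSys D rel b) {k : ℕ} (hk : k ≤ 4) (T : Finset (Fin k → G))
    (hT : ∀ t ∈ T, (∀ i, t i ∈ D) ∧ Nd t) (s : G) (hs : ∀ t ∈ T, ∑ i, t i = s) :
    T.card ≤ (k * b) ^ k := by
  classical
  rcases T.eq_empty_or_nonempty with rfl | ⟨t0, ht0⟩
  · simp
  choose F hF1 hF2 using fun i => h.fin (t0 i) ((hT t0 ht0).1 i)
  set U : Finset G := univ.biUnion F with hU
  have hUc : U.card ≤ k * b := by
    calc U.card ≤ ∑ i : Fin k, (F i).card := card_biUnion_le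
      _ ≤ ∑ _i : Fin k, b := sum_le_sum fun i _ => hF1 i
      _ = k * b := by simp
  have hsub : T ⊆ Fintype.piFinset (fun _ : Fin k => U) := by
    intro t ht
    rw [Fintype.mem_piFinset]
    intro j
    obtain ⟨i, hi⟩ := h.dom hk t0 t (hT t0 ht0).1 (hT t ht).1 (hT t ht).2
      (by rw [hs t0 ht0, hs t ht]) j
    rw [hU, mem_biUnion]
    exact ⟨i, mem_univ _, hF2 i _ ((hT t ht).1 j) hi⟩
  calc T.card ≤ (Fintype.piFinset (fun _ : Fin k => U)).card := card_le_card hsub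
    _ = U.card ^ k := by rw [Fintype.card_piFinset_const]
    _ ≤ (k * b) ^ k := Nat.pow_le_pow_left hUc k

/-- the number of tuples without vanishing subsum and with sums in a given set -/
theorem DirSys.card_tuples (h : DirSys D rel b) {k : ℕ} (hk : k ≤ 4) (T : Finset (Fin k → G))
    (hT : ∀ t ∈ T, (∀ i, t i ∈ D) ∧ Nd t) (S : Finset G) (hS : ∀ t ∈ T, ∑ i, t i ∈ S) :
    T.card ≤ (k * b) ^ k * S.card := by
  classical
  refine card_le_mul_card_image_of_maps_to (f := fun t => ∑ i, t i) hS _ ?_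
  intro s _
  refine h.card_fiber hk _ (fun t ht => hT t (mem_filter.1 ht).1) s (fun t ht => (mem_filter.1 ht).2)

theorem DirSys.nd_or (h : DirSys D rel b) (f : Fin 4 → G) (hf : ∀ i, f i ∈ D) (hn : ¬ Nd f) :
    ∃ J : Finset (Fin 4), J.Nonempty ∧ ((if 0 ∈ J then f 0 else 0) + (if 1 ∈ J then f 1 else 0) +
      (if 2 ∈ J then f 2 else 0) + (if 3 ∈ J then f 3 else 0) = 0) ∧
      ∀ i ∈ J, ∀ j ∈ J, rel (f i) (f j) := by
  unfold Nd at hn
  push Not at hn
  obtain ⟨J, ⟨i0, hi0⟩, hJ0⟩ := hn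
  obtain ⟨J', hJ'J, hi0', hJ'0, hmin⟩ := exists_min_sub J f hJ0 i0 hi0
  refine ⟨J', ⟨i0, hi0'⟩, ?_, ?_⟩
  · have h1 : ∑ i ∈ J', f i = ∑ i : Fin 4, if i ∈ J' then f i else 0 := by
      rw [sum_ite_mem, univ_inter]
    rw [h1, Fin.sum_univ_four] at hJ'0
    exact hJ'0
  · have hcard : J'.card ≤ 8 := by
      have := card_le_univ J'
      rw [Fintype.card_fin] at this
      omega
    exact h.min _ J' f hcard (fun i _ => hf i) hJ'0 hmin

theorem DirSys.nd_two (h : DirSys D rel b) {u v : G} (hu : u ∈ D) (hv : v ∈ D) (huv : u + v ≠ 0) :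
    Nd ![u, v] := by
  intro J hJ h0
  have h1 : ∑ i ∈ J, ![u, v] i = ∑ i : Fin 2, if i ∈ J then ![u, v] i else 0 := by
    rw [sum_ite_mem, univ_inter]
  rw [h1, Fin.sum_univ_two] at h0
  simp only [Matrix.cons_val_zero, Matrix.cons_val_one] at h0
  by_cases h2 : (0 : Fin 2) ∈ J
  · by_cases h3 : (1 : Fin 2) ∈ J
    · rw [if_pos h2, if_pos h3] at h0
      exact huv h0
    · rw [if_pos h2, if_neg h3, add_zero] at h0
      exact h.ne_zero hu h0
  · by_cases h3 : (1 : Fin 2) ∈ J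
    · rw [if_neg h2, if_pos h3, zero_add] at h0
      exact h.ne_zero hv h0
    · obtain ⟨i, hi⟩ := hJ
      fin_cases i
      · exact h2 hi
      · exact h3 hi

/-- `(-x₁, y₁, -x₂, y₂)` -/
theorem DirSys.nd_pairs (h : DirSys D rel b) {x₁ y₁ x₂ y₂ : G} (hx₁ : x₁ ∈ D) (hy₁ : y₁ ∈ D)
    (hx₂ : x₂ ∈ D) (hy₂ : y₂ ∈ D) (h1 : y₁ ≠ x₁) (h2 : y₂ ≠ x₂) (r1 : ¬ rel x₁ x₂)
    (r2 : ¬ rel x₁ y₂) (r3 : ¬ rel y₁ x₂) (r4 : ¬ rel y₁ y₂) : Nd ![-x₁, y₁, -x₂, y₂] := by
  by_contra hn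
  have hf : ∀ i : Fin 4, ![-x₁, y₁, -x₂, y₂] i ∈ D := by
    intro i
    fin_cases i
    · exact h.neg_mem _ hx₁
    · exact hy₁
    · exact h.neg_mem _ hx₂
    · exact hy₂
  obtain ⟨J, hJ, h0, hr⟩ := h.nd_or _ hf hn
  have e0 : (![-x₁, y₁, -x₂, y₂] : Fin 4 → G) 0 = -x₁ := rfl
  have e1 : (![-x₁, y₁, -x₂, y₂] : Fin 4 → G) 1 = y₁ := rfl
  have e2 : (![-x₁, y₁, -x₂, y₂] : Fin 4 → G) 2 = -x₂ := rfl
  have e3 : (![-x₁, y₁, -x₂, y₂] : Fin 4 → G) 3 = y₂ := rfl
  rw [e0, e1, e2, e3] at h0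
  have q02 : ¬ ((0 : Fin 4) ∈ J ∧ (2 : Fin 4) ∈ J) := by
    rintro ⟨ha, hb⟩
    have := hr _ ha _ hb
    rw [e0, e2] at this
    exact r1 (h.negr' (h.negl' this))
  have q03 : ¬ ((0 : Fin 4) ∈ J ∧ (3 : Fin 4) ∈ J) := by
    rintro ⟨ha, hb⟩
    have := hr _ ha _ hb
    rw [e0, e3] at this
    exact r2 (h.negl' this)
  have q12 : ¬ ((1 : Fin 4) ∈ J ∧ (2 : Fin 4) ∈ J) := by
    rintro ⟨ha, hb⟩
    have := hr _ ha _ hb
    rw [e1, e2] at this
    exact r3 (h.negr' this)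
  have q13 : ¬ ((1 : Fin 4) ∈ J ∧ (3 : Fin 4) ∈ J) := by
    rintro ⟨ha, hb⟩
    have := hr _ ha _ hb
    rw [e1, e3] at this
    exact r4 this
  by_cases m0 : (0 : Fin 4) ∈ J <;> by_cases m1 : (1 : Fin 4) ∈ J <;>
    by_cases m2 : (2 : Fin 4) ∈ J <;> by_cases m3 : (3 : Fin 4) ∈ J <;>
    simp only [m0, m1, m2, m3, if_true, if_false, add_zero, zero_add, and_self, and_false,
      false_and, not_true, not_false_iff, and_true, true_and] at h0 q02 q03 q12 q13
  · exact h1 (eq_of_sub_eq_zero (by rw [← h0]; abel))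
  · exact h.ne_zero hx₁ (neg_eq_zero.1 h0)
  · exact h.ne_zero hy₁ h0
  · exact h2 (eq_of_sub_eq_zero (by rw [← h0]; abel))
  · exact h.ne_zero hx₂ (neg_eq_zero.1 h0)
  · exact h.ne_zero hy₂ h0
  · obtain ⟨i, hi⟩ := hJ
    fin_cases i
    · exact m0 hi
    · exact m1 hi
    · exact m2 hi
    · exact m3 hi

/-- `(u, v, w, x)` -/
theorem DirSys.nd_three (h : DirSys D rel b) {u v w x : G} (hu : u ∈ D) (hv : v ∈ D)
    (hw : w ∈ D) (hx : x ∈ D) (r1 : ¬ rel u v) (r2 : ¬ rel u w) (r3 : ¬ rel v w)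
    (h1 : x ≠ -u) (h2 : x ≠ -v) (h3 : x ≠ -w) : Nd ![u, v, w, x] := by
  by_contra hn
  have hf : ∀ i : Fin 4, ![u, v, w, x] i ∈ D := by
    intro i
    fin_cases i
    · exact hu
    · exact hv
    · exact hw
    · exact hx
  obtain ⟨J, hJ, h0, hr⟩ := h.nd_or _ hf hn
  have e0 : (![u, v, w, x] : Fin 4 → G) 0 = u := rfl
  have e1 : (![u, v, w, x] : Fin 4 → G) 1 = v := rfl
  have e2 : (![u, v, w, x] : Fin 4 → G) 2 = w := rfl
  have e3 : (![u, v, w, x] : Fin 4 → G) 3 = x := rfl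
  rw [e0, e1, e2, e3] at h0
  have q01 : ¬ ((0 : Fin 4) ∈ J ∧ (1 : Fin 4) ∈ J) := by
    rintro ⟨ha, hb⟩
    have := hr _ ha _ hb
    rw [e0, e1] at this
    exact r1 this
  have q02 : ¬ ((0 : Fin 4) ∈ J ∧ (2 : Fin 4) ∈ J) := by
    rintro ⟨ha, hb⟩
    have := hr _ ha _ hb
    rw [e0, e2] at this
    exact r2 this
  have q12 : ¬ ((1 : Fin 4) ∈ J ∧ (2 : Fin 4) ∈ J) := by
    rintro ⟨ha, hb⟩
    have := hr _ ha _ hb
    rw [e1, e2] at this
    exact r3 this
  by_cases m0 : (0 : Fin 4) ∈ J <;> by_cases m1 : (1 : Fin 4) ∈ J <;>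
    by_cases m2 : (2 : Fin 4) ∈ J <;> by_cases m3 : (3 : Fin 4) ∈ J <;>
    simp only [m0, m1, m2, m3, if_true, if_false, add_zero, zero_add, and_self, and_false,
      false_and, not_true, not_false_iff, and_true, true_and] at h0 q01 q02 q12
  · exact h1 (eq_neg_of_add_eq_zero_right h0)
  · exact h.ne_zero hu h0
  · exact h2 (eq_neg_of_add_eq_zero_right h0)
  · exact h.ne_zero hv h0
  · exact h3 (eq_neg_of_add_eq_zero_right h0)
  · exact h.ne_zero hw h0
  · exact h.ne_zero hx h0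
  · obtain ⟨i, hi⟩ := hJ
    fin_cases i
    · exact m0 hi
    · exact m1 hi
    · exact m2 hi
    · exact m3 hi

end basic

end UCR
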