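import Mathlib
import Pool.Agent.UCR.Core

/-!
# UCR: vanishing sums of at most eight roots of unity (Mann's theorem)
-/

set_option autoImplicit false

namespace UCR

open Finset Polynomial

/-- Galois conjugates of a vanishing sum of roots of unity -/
theorem sum_conj {N : ℕ} {ζ : ℂ} (hζ : IsPrimitiveRoot ζ N) (hN : 0 < N) {t : ℕ}
    (ht : Nat.Coprime t N) {ι : Type} (I : Finset ι) (a : ι → ℕ)
    (h : ∑ i ∈ I, ζ ^ (a i) = 0) : ∑ i ∈ I, ζ ^ (t * a i) = 0 := by
  set F : ℤ[X] := ∑ i ∈ I, X ^ (a i) with hF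
  have h1 : aeval ζ F = 0 := by
    rw [hF, map_sum]
    simpa using h
  have h2 : minpoly ℤ ζ ∣ F := minpoly.isIntegrallyClosed_dvd (hζ.isIntegral hN) h1
  have h3 : aeval (ζ ^ t) (minpoly ℤ ζ) = 0 := by
    rw [hζ.minpoly_eq_pow_coprime ht]
    exact minpoly.aeval ℤ _
  obtain ⟨G, hG⟩ := h2
  have h4 : aeval (ζ ^ t) F = 0 := by
    rw [hG, map_mul, h3, zero_mul]
  rw [hF, map_sum] at h4
  simp only [map_pow, aeval_X] at h4
  rw [← h4]
  refine sum_congr rfl fun i _ => ?_
  rw [pow_mul]

/-- geometric sums of `p`-th roots of unity -/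
theorem geom_root {p : ℕ} {ω : ℂ} (hω : ω ^ p = 1) (hω1 : ω ≠ 1) :
    ∑ r ∈ range p, ω ^ r = 0 := by
  have h := mul_geom_sum ω p
  rw [hω, sub_self] at h
  exact (mul_eq_zero.1 h).resolve_left (sub_ne_zero.2 hω1)

/-- the key step -/
theorem mann_step {N p M : ℕ} (hp : p.Prime) (hNpM : N = p * M) (hM : 0 < M) {ζ : ℂ}
    (hζ : IsPrimitiveRoot ζ N) {ι : Type} (I : Finset ι) (a : ι → ℕ)
    (h : ∑ i ∈ I, ζ ^ (a i) = 0) (hc : p ∣ M ∨ I.card < p) :
    ∑ i ∈ I.filter (fun i => p ∣ a i), ζ ^ (a i) = 0 := by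
  have hN : 0 < N := by rw [hNpM]; exact Nat.mul_pos hp.pos hM
  set ω := ζ ^ M with hω
  have hωp : ω ^ p = 1 := by
    rw [hω, ← pow_mul, mul_comm, ← hNpM]
    exact hζ.pow_eq_one
  have hω1 : ∀ m : ℕ, ω ^ m = 1 ↔ p ∣ m := by
    intro m
    rw [hω, ← pow_mul, hζ.pow_eq_one_iff_dvd, hNpM, mul_comm M m]
    exact Nat.mul_dvd_mul_iff_right hM
  -- the conjugates
  set T : ℕ → ℂ := fun r => ∑ i ∈ I, ζ ^ (a i) * ω ^ (r * a i) with hT
  have hTr : ∀ r, ¬ p ∣ 1 + r * M → T r = 0 := by
    intro r hr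
    have hcop : Nat.Coprime (1 + r * M) N := by
      rw [hNpM]
      refine Nat.Coprime.mul_right ?_ ?_
      · exact ((Nat.Prime.coprime_iff_not_dvd hp).2 hr).symm
      · have : Nat.Coprime (1 + r * M) M := by simp
        exact this
    have h1 := sum_conj hζ hN hcop I a h
    rw [hT]
    simp only
    rw [← h1]
    refine sum_congr rfl fun i _ => ?_
    rw [hω, ← pow_mul, ← pow_add]
    congr 1
    ring
  have hT0 : ∀ r ∈ range p, T r = 0 := by
    rcases hc with hpM | hcard
    · intro r _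
      apply hTr
      intro hd
      have h1 : p ∣ r * M := Dvd.dvd.mul_left hpM r
      have h2 : p ∣ 1 := (Nat.dvd_add_left h1).1 hd
      exact hp.one_lt.ne' (Nat.dvd_one.1 h2)
    · -- an empty class
      obtain ⟨e, he⟩ : ∃ e : ℕ, ∀ i ∈ I, ¬ p ∣ a i + e := by
        have h1 : (I.image (fun i => (p - a i % p) % p)).card < (range p).card := by
          rw [card_range]
          exact lt_of_le_of_lt card_image_le hcard
        obtain ⟨e, he1, he2⟩ := exists_mem_notMem_of_card_lt_card h1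
        refine ⟨e, fun i hi hd => he2 ?_⟩
        rw [mem_image]
        refine ⟨i, hi, ?_⟩
        rw [mem_range] at he1
        have hpos := hp.pos
        have h3 : a i % p < p := Nat.mod_lt _ hpos
        have h4 : (a i % p + e) % p = 0 := by
          rw [Nat.mod_add_mod]
          exact Nat.mod_eq_zero_of_dvd hd
        rcases Nat.eq_zero_or_pos (a i % p) with h5 | h5
        · rw [h5, zero_add, Nat.mod_eq_of_lt he1] at h4
          rw [h5, Nat.sub_zero, Nat.mod_self, h4]
        · rw [Nat.mod_eq_of_lt (by omega)]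
          have h6 : p ∣ a i % p + e := Nat.dvd_of_mod_eq_zero h4
          obtain ⟨c, hc⟩ := h6
          have hc1 : c = 1 := by
            have h7 : p * c < p * 2 := by omega
            have h8 := Nat.lt_of_mul_lt_mul_left h7
            have h9 : c ≠ 0 := by
              rintro rfl
              omega
            omega
          rw [hc1] at hc
          omega
      have hsum : ∑ r ∈ range p, ω ^ (r * e) * T r = 0 := by
        have h1 : ∑ r ∈ range p, ω ^ (r * e) * T r =
            ∑ i ∈ I, ζ ^ (a i) * ∑ r ∈ range p, (ω ^ (a i + e)) ^ r := by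
          simp_rw [hT, mul_sum]
          rw [sum_comm]
          refine sum_congr rfl fun i _ => sum_congr rfl fun r _ => ?_
          have h2 : (ω ^ (a i + e)) ^ r = ω ^ (r * e) * ω ^ (r * a i) := by
            rw [← pow_add, ← pow_mul]
            congr 1
            ring
          rw [h2]
          ring
        rw [h1]
        refine sum_eq_zero fun i hi => ?_
        rw [geom_root, mul_zero]
        · rw [← pow_mul, mul_comm, pow_mul, hωp, one_pow]
        · intro h2
          exact he i hi ((hω1 _).1 h2)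
      -- at most one `r` is exceptional
      intro r0 hr0
      by_contra hne
      have hex : p ∣ 1 + r0 * M := by
        by_contra h2
        exact hne (hTr r0 h2)
      have hpM : ¬ p ∣ M := by
        intro h3
        have h4 : p ∣ 1 := (Nat.dvd_add_left (Dvd.dvd.mul_left h3 r0)).1 hex
        exact hp.one_lt.ne' (Nat.dvd_one.1 h4)
      have hone : ∑ r ∈ range p, ω ^ (r * e) * T r = ω ^ (r0 * e) * T r0 := by
        refine sum_eq_single_of_mem r0 hr0 ?_
        intro r hr hrr0
        rw [hTr r, mul_zero]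
        intro h5
        apply hrr0
        -- `p ∣ (r - r0) M`
        have h6 : (p : ℤ) ∣ ((r : ℤ) - r0) * M := by
          have h7 : (p : ℤ) ∣ 1 + r * M := by exact_mod_cast h5
          have h8 : (p : ℤ) ∣ 1 + r0 * M := by exact_mod_cast hex
          have := dvd_sub h7 h8
          have h9 : (1 + (r : ℤ) * M) - (1 + r0 * M) = ((r : ℤ) - r0) * M := by ring
          rwa [h9] at this
        have hpi : Prime (p : ℤ) := Nat.prime_iff_prime_int.1 hp
        rcases hpi.dvd_or_dvd h6 with h7 | h7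
        · rw [mem_range] at hr hr0
          have h8 := Int.eq_zero_of_abs_lt_dvd h7 (by rw [abs_lt]; omega)
          omega
        · exact absurd (Int.natCast_dvd_natCast.1 h7) hpM
      rw [hone] at hsum
      rcases mul_eq_zero.1 hsum with h6 | h6
      · have h7 : ω ≠ 0 := by
          intro h8
          rw [h8, zero_pow hp.ne_zero] at hωp
          exact zero_ne_one hωp
        exact (pow_ne_zero _ h7) h6
      · exact hne h6
  -- sum over `r`
  have hfin : ∑ r ∈ range p, T r = (p : ℂ) * ∑ i ∈ I.filter (fun i => p ∣ a i), ζ ^ (a i) := by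
    have h1 : ∑ r ∈ range p, T r = ∑ i ∈ I, ζ ^ (a i) * ∑ r ∈ range p, (ω ^ (a i)) ^ r := by
      simp_rw [hT, mul_sum]
      rw [sum_comm]
      refine sum_congr rfl fun i _ => sum_congr rfl fun r _ => ?_
      have h2 : (ω ^ (a i)) ^ r = ω ^ (r * a i) := by
        rw [← pow_mul, mul_comm r (a i)]
      rw [h2]
    rw [h1, mul_sum, sum_filter]
    refine sum_congr rfl fun i _ => ?_
    by_cases hd : p ∣ a i
    · rw [if_pos hd, (hω1 _).2 hd]
      simp
      ring
    · rw [if_neg hd, geom_root, mul_zero]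
      · rw [← pow_mul, mul_comm, pow_mul, hωp, one_pow]
      · intro h2
        exact hd ((hω1 _).1 h2)
  rw [sum_eq_zero hT0] at hfin
  have hp0 : (p : ℂ) ≠ 0 := by exact_mod_cast hp.ne_zero
  exact (mul_eq_zero.1 hfin.symm).resolve_left hp0

/-- **Mann's theorem** for sums of at most eight roots of unity -/
theorem mann {ι : Type} [DecidableEq ι] (I : Finset ι) (f : ι → ℂ) (hcard : I.card ≤ 8)
    (hf : ∀ i ∈ I, ∃ n : ℕ, 0 < n ∧ f i ^ n = 1) (h0 : ∑ i ∈ I, f i = 0)
    (hmin : ∀ J ⊂ I, J.Nonempty → ∑ i ∈ J, f i ≠ 0) :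
    ∀ i ∈ I, ∀ j ∈ I, f i ^ 210 = f j ^ 210 := by
  intro i hi j hj
  have hne : ∀ i ∈ I, f i ≠ 0 := by
    intro i hi h
    obtain ⟨n, hn, hn1⟩ := hf i hi
    rw [h, zero_pow hn.ne'] at hn1
    exact zero_ne_one hn1
  have hj0 := hne j hj
  set g : ι → ℂ := fun i => f i / f j with hg
  have hgj : g j = 1 := by rw [hg]; exact div_self hj0
  -- a common exponent
  have hexN : ∃ N : ℕ, 0 < N ∧ ∀ i ∈ I, g i ^ N = 1 := by
    choose! n hn hn1 using hf
    refine ⟨(∏ i ∈ I, n i) * n j, Nat.mul_pos (prod_pos fun i hi => hn i hi) (hn j hj), ?_⟩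
    intro i hi
    have h1 : f i ^ ((∏ i ∈ I, n i) * n j) = 1 := by
      rw [← mul_prod_erase I n hi, mul_assoc, pow_mul, hn1 i hi, one_pow]
    have h2 : f j ^ ((∏ i ∈ I, n i) * n j) = 1 := by
      rw [mul_comm, pow_mul, hn1 j hj, one_pow]
    rw [hg]
    simp only
    rw [div_pow, h1, h2, div_one]
  classical
  set N := Nat.find hexN with hNdef
  obtain ⟨hN, hgN⟩ := Nat.find_spec hexN
  rw [← hNdef] at hN hgN
  have hNmin : ∀ M : ℕ, 0 < M → (∀ i ∈ I, g i ^ M = 1) → N ≤ M := fun M hM hgM =>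
    Nat.find_min' hexN ⟨hM, hgM⟩
  have hζ : IsPrimitiveRoot (Complex.exp (2 * Real.pi * Complex.I / N)) N :=
    Complex.isPrimitiveRoot_exp N hN.ne'
  set ζ := Complex.exp (2 * Real.pi * Complex.I / N) with hζdef
  haveI : NeZero N := ⟨hN.ne'⟩
  have hexa : ∀ i ∈ I, ∃ a < N, ζ ^ a = g i := fun i hi => hζ.eq_pow_of_pow_eq_one (hgN i hi)
  choose! a ha1 ha2 using hexa
  have hsum : ∑ i ∈ I, ζ ^ (a i) = 0 := by
    rw [sum_congr rfl ha2]
    rw [hg, ← sum_div, h0, zero_div]
  -- the key claim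
  have key : ∀ p : ℕ, p.Prime → ∀ M : ℕ, N = p * M → ¬ (p ∣ M ∨ I.card < p) := by
    intro p hp M hNM hc
    have hM : 0 < M := by
      rcases Nat.eq_zero_or_pos M with h1 | h1
      · rw [h1, mul_zero] at hNM
        omega
      · exact h1
    have h1 := mann_step hp hNM hM hζ I a hsum hc
    set J := I.filter (fun i => p ∣ a i) with hJ
    have hjJ : j ∈ J := by
      rw [hJ, mem_filter]
      refine ⟨hj, ?_⟩
      have h2 := ha2 j hj
      rw [hgj, hζ.pow_eq_one_iff_dvd] at h2
      exact (Dvd.intro M hNM.symm).trans h2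
    have hJI : J = I := by
      by_contra hne'
      have hss : J ⊂ I := ⟨filter_subset _ _, fun h3 =>
        hne' (Subset.antisymm (filter_subset _ _) h3)⟩
      apply hmin J hss ⟨j, hjJ⟩
      have h4 : ∑ i ∈ J, f i = f j * ∑ i ∈ J, ζ ^ (a i) := by
        rw [mul_sum]
        refine sum_congr rfl fun i hi => ?_
        rw [ha2 i (filter_subset _ _ hi), hg]
        field_simp
      rw [h4, h1, mul_zero]
    have h5 : N ≤ M := by
      refine hNmin M hM fun i hi => ?_
      rw [← hJI, hJ, mem_filter] at hi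
      obtain ⟨c, hc2⟩ := hi.2
      rw [← ha2 i hi.1, ← pow_mul, hζ.pow_eq_one_iff_dvd, hNM, hc2]
      exact ⟨c, by ring⟩
    have h6 : 2 ≤ p := hp.two_le
    rw [hNM] at h5
    have h7 : 2 * M ≤ p * M := Nat.mul_le_mul_right M h6
    omega
  -- `N` divides `210`
  have hN210 : N ∣ 210 := by
    have hsq : Squarefree N := by
      rw [Nat.squarefree_iff_prime_squarefree]
      intro p hp hpp
      obtain ⟨c, hc⟩ := hpp
      exact key p hp (p * c) (by rw [hc]; ring) (Or.inl ⟨c, rfl⟩)
    rw [← Nat.prod_primeFactors_of_squarefree hsq]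
    have h210 : (210 : ℕ) = ∏ p ∈ ({2, 3, 5, 7} : Finset ℕ), p := by decide
    rw [h210]
    refine prod_dvd_prod_of_subset _ _ _ ?_
    intro p hp
    obtain ⟨hpp, hpN, _⟩ := Nat.mem_primeFactors.1 hp
    obtain ⟨M, hM⟩ := hpN
    have h1 := key p hpp M hM
    push Not at h1
    have h2 : p ≤ 8 := h1.2.trans hcard
    interval_cases p <;> first | decide | (exact absurd hpp (by decide))
  obtain ⟨c, hc⟩ := hN210
  have h1 : g i ^ 210 = 1 := by
    rw [hc, pow_mul, hgN i hi, one_pow]
  rw [hg] at h1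
  simp only at h1
  rw [div_pow, div_eq_one_iff_eq (pow_ne_zero _ hj0)] at h1
  exact h1

end UCR
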