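import Mathlib
import Pool.Agent.UCR.Core

/-!
# UCR: pairs of points whose difference is a difference of two related directions
-/

set_option autoImplicit false

namespace UCR

open Finset Classical

variable {G : Type*} [AddCommGroup G] {D : Set G} {rel : G → G → Prop} {b : ℕ}

theorem DirSys.exF (h : DirSys D rel b) : ∃ F : G → Finset G, (∀ u, (F u).card ≤ b) ∧
    ∀ u ∈ D, ∀ v ∈ D, rel u v → v ∈ F u := by
  have h1 : ∀ u, ∃ F : Finset G, F.card ≤ b ∧ (u ∈ D → ∀ v ∈ D, rel u v → v ∈ F) := by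
    intro u
    by_cases hu : u ∈ D
    · obtain ⟨F, hF1, hF2⟩ := h.fin u hu
      exact ⟨F, hF1, fun _ => hF2⟩
    · exact ⟨∅, by simp, fun h2 => absurd h2 hu⟩
  choose F hF using h1
  exact ⟨F, fun u => (hF u).1, fun u hu => (hF u).2 hu⟩

/-- `d` is a difference of two related directions -/
def Lk (D : Set G) (rel : G → G → Prop) (d : G) : Prop :=
  ∃ x ∈ D, ∃ y ∈ D, x ≠ y ∧ rel x y ∧ d = y - x

theorem DirSys.Lk_neg (h : DirSys D rel b) {d : G} (hd : Lk D rel d) : Lk D rel (-d) := by
  obtain ⟨x, hx, y, hy, hne, hr, rfl⟩ := hd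
  exact ⟨y, hy, x, hx, hne.symm, h.symm _ _ hr, by abel⟩

/-- the degree bound -/
theorem DirSys.pair_degree (h : DirSys D rel b) (S : Finset G) (hS : S.Nonempty) (m : ℕ)
    (hm : ∀ p ∈ S, m ≤ (S.filter (fun p' => Lk D rel (p' - p))).card) :
    m * (m - 4 * b ^ 2) ≤ 16 * b ^ 2 * S.card := by
  obtain ⟨F, hF1, hF2⟩ := h.exF
  obtain ⟨p0, hp0⟩ := hS
  set good : G → G → Prop := fun p1 p2 => ∃ x1 ∈ D, ∃ y1 ∈ D, ∃ x2 ∈ D, ∃ y2 ∈ D,
    x1 ≠ y1 ∧ x2 ≠ y2 ∧ p1 - p0 = y1 - x1 ∧ p2 - p1 = y2 - x2 ∧ ¬ rel x1 x2 ∧ ¬ rel x1 y2 ∧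
    ¬ rel y1 x2 ∧ ¬ rel y1 y2 with hgood
  set A : Finset G := S.filter (fun p' => Lk D rel (p' - p0)) with hA
  -- the lower bound
  have hlow : ∀ p1 ∈ A, m - 4 * b ^ 2 ≤ (S.filter (fun p2 => good p1 p2)).card := by
    intro p1 hp1
    rw [hA, mem_filter] at hp1
    obtain ⟨hp1S, x1, hx1, y1, hy1, hne1, hr1, hd1⟩ := hp1
    set V : Finset G := F x1 ∪ F y1 with hV
    have hVc : V.card ≤ 2 * b := by
      calc V.card ≤ (F x1).card + (F y1).card := card_union_le _ _
        _ ≤ 2 * b := by have := hF1 x1; have := hF1 y1; omega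
    set B1 : Finset G := V.biUnion (fun x => (F x).image (fun y => p1 + (y - x))) with hB1
    set B2 : Finset G := V.biUnion (fun y => (F y).image (fun x => p1 + (y - x))) with hB2
    have hB1c : B1.card ≤ 2 * b * b := by
      calc B1.card ≤ ∑ x ∈ V, ((F x).image (fun y => p1 + (y - x))).card := card_biUnion_le
        _ ≤ ∑ _x ∈ V, b := sum_le_sum fun x _ => card_image_le.trans (hF1 x)
        _ = V.card * b := by simp
        _ ≤ 2 * b * b := by gcongr
    have hB2c : B2.card ≤ 2 * b * b := by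
      calc B2.card ≤ ∑ y ∈ V, ((F y).image (fun x => p1 + (y - x))).card := card_biUnion_le
        _ ≤ ∑ _x ∈ V, b := sum_le_sum fun x _ => card_image_le.trans (hF1 x)
        _ = V.card * b := by simp
        _ ≤ 2 * b * b := by gcongr
    have hsub : S.filter (fun p' => Lk D rel (p' - p1)) ⊆
        (S.filter (fun p2 => good p1 p2)) ∪ (B1 ∪ B2) := by
      intro p2 hp2
      rw [mem_filter] at hp2
      obtain ⟨hp2S, x2, hx2, y2, hy2, hne2, hr2, hd2⟩ := hp2
      rw [mem_union, mem_union]
      by_cases hg : ¬ rel x1 x2 ∧ ¬ rel x1 y2 ∧ ¬ rel y1 x2 ∧ ¬ rel y1 y2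
      · left
        rw [mem_filter]
        exact ⟨hp2S, x1, hx1, y1, hy1, x2, hx2, y2, hy2, hne1, hne2, hd1, hd2, hg.1, hg.2.1,
          hg.2.2.1, hg.2.2.2⟩
      · right
        have e : p2 = p1 + (y2 - x2) := by rw [← hd2]; abel
        have hor : (rel x1 x2 ∨ rel y1 x2) ∨ (rel x1 y2 ∨ rel y1 y2) := by tauto
        rcases hor with hh | hh
        · left
          rw [hB1, mem_biUnion]
          refine ⟨x2, ?_, ?_⟩
          · rw [hV, mem_union]
            rcases hh with hh | hh
            · exact Or.inl (hF2 _ hx1 _ hx2 hh)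
            · exact Or.inr (hF2 _ hy1 _ hx2 hh)
          · rw [mem_image]
            exact ⟨y2, hF2 _ hx2 _ hy2 hr2, e.symm⟩
        · right
          rw [hB2, mem_biUnion]
          refine ⟨y2, ?_, ?_⟩
          · rw [hV, mem_union]
            rcases hh with hh | hh
            · exact Or.inl (hF2 _ hx1 _ hy2 hh)
            · exact Or.inr (hF2 _ hy1 _ hy2 hh)
          · rw [mem_image]
            exact ⟨x2, hF2 _ hy2 _ hx2 (h.symm _ _ hr2), e.symm⟩
    have h1 := hm p1 hp1S
    have h2 := card_le_card hsub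
    have h3 := card_union_le (S.filter (fun p2 => good p1 p2)) (B1 ∪ B2)
    have h4 := card_union_le B1 B2
    have h5 : 2 * b * b + 2 * b * b = 4 * b ^ 2 := by ring
    omega
  set B : Finset (G × G) := (S ×ˢ S).filter (fun z => good z.1 z.2) with hB
  have hB_low : A.card * (m - 4 * b ^ 2) ≤ B.card := by
    have h1 : ∀ p1 ∈ A, m - 4 * b ^ 2 ≤ (B.filter (fun z => z.1 = p1)).card := by
      intro p1 hp1
      refine (hlow p1 hp1).trans ?_
      have hp1S : p1 ∈ S := (mem_filter.1 hp1).1
      refine card_le_card_of_injOn (fun p2 => (p1, p2)) ?_ ?_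
      · intro p2 hp2
        have hp2' := mem_filter.1 (mem_coe.1 hp2)
        rw [mem_coe, mem_filter, hB, mem_filter, mem_product]
        exact ⟨⟨⟨hp1S, hp2'.1⟩, hp2'.2⟩, rfl⟩
      · intro a _ c _ hac
        exact (Prod.ext_iff.1 hac).2
    calc A.card * (m - 4 * b ^ 2) = ∑ _p ∈ A, (m - 4 * b ^ 2) := by simp
      _ ≤ ∑ p1 ∈ A, (B.filter (fun z => z.1 = p1)).card := sum_le_sum h1
      _ ≤ B.card := by
        rw [← card_biUnion]
        · exact card_le_card (biUnion_subset.2 fun p _ => filter_subset _ _)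
        · intro p1 _ p2 _ hne
          change Disjoint _ _
          rw [Finset.disjoint_left]
          intro z hz1 hz2
          exact hne ((mem_filter.1 hz1).2.symm.trans (mem_filter.1 hz2).2)
  -- the upper bound
  have hB_up : B.card ≤ 16 * b ^ 2 * S.card := by
    refine card_le_mul_card_image_of_maps_to (f := fun z : G × G => z.2) (t := S) ?_ _ ?_
    · intro z hz
      rw [hB, mem_filter, mem_product] at hz
      exact hz.1.2
    · intro p2 hp2
      rcases (B.filter (fun z => z.2 = p2)).eq_empty_or_nonempty with he | ⟨z0, hz0⟩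
      · rw [he]; simp
      obtain ⟨hz0B, hz02⟩ := mem_filter.1 hz0
      rw [hB, mem_filter] at hz0B
      obtain ⟨_, x1, hx1, y1, hy1, x2, hx2, y2, hy2, hne1, hne2, hd1, hd2, q1, q2, q3, q4⟩ := hz0B
      set t0 : Fin 4 → G := ![-x1, y1, -x2, y2] with ht0
      have ht0D : ∀ i, t0 i ∈ D := by
        intro i
        fin_cases i
        · exact h.neg_mem _ hx1
        · exact hy1
        · exact h.neg_mem _ hx2
        · exact hy2
      have ht0s : ∑ i, t0 i = p2 - p0 := by
        rw [Fin.sum_univ_four]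
        change -x1 + y1 + -x2 + y2 = p2 - p0
        have : p2 - p0 = (z0.2 - z0.1) + (z0.1 - p0) := by rw [hz02]; abel
        rw [this, hd1, hd2]
        abel
      set U : Finset G := univ.biUnion (fun i => F (t0 i)) with hU
      have hUc : U.card ≤ 4 * b := by
        calc U.card ≤ ∑ i : Fin 4, (F (t0 i)).card := card_biUnion_le
          _ ≤ ∑ _i : Fin 4, b := sum_le_sum fun i _ => hF1 _
          _ = 4 * b := by simp
      have hsub : B.filter (fun z => z.2 = p2) ⊆
          (U ×ˢ U).image (fun w : G × G => (p0 + (w.2 - w.1), p2)) := by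
        intro z hz
        obtain ⟨hzB, hz2⟩ := mem_filter.1 hz
        rw [hB, mem_filter] at hzB
        obtain ⟨_, x1', hx1', y1', hy1', x2', hx2', y2', hy2', hne1', hne2', hd1', hd2',
          q1', q2', q3', q4'⟩ := hzB
        have htD : ∀ i, (![-x1', y1', -x2', y2'] : Fin 4 → G) i ∈ D := by
          intro i
          fin_cases i
          · exact h.neg_mem _ hx1'
          · exact hy1'
          · exact h.neg_mem _ hx2'
          · exact hy2'
        have htn : Nd ![-x1', y1', -x2', y2'] :=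
          h.nd_pairs hx1' hy1' hx2' hy2' hne1'.symm hne2'.symm q1' q2' q3' q4'
        have hts : ∑ i, t0 i = ∑ i, (![-x1', y1', -x2', y2'] : Fin 4 → G) i := by
          rw [ht0s, Fin.sum_univ_four]
          change p2 - p0 = -x1' + y1' + -x2' + y2'
          have : p2 - p0 = (z.2 - z.1) + (z.1 - p0) := by rw [hz2]; abel
          rw [this, hd1', hd2']
          abel
        have hy1U : y1' ∈ U := by
          obtain ⟨i, hi⟩ := h.dom (by norm_num) t0 _ ht0D htD htn hts 1
          rw [hU, mem_biUnion]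
          exact ⟨i, mem_univ _, hF2 _ (ht0D i) _ hy1' hi⟩
        have hx1U : x1' ∈ U := by
          obtain ⟨i, hi⟩ := h.dom (by norm_num) t0 _ ht0D htD htn hts 0
          rw [hU, mem_biUnion]
          exact ⟨i, mem_univ _, hF2 _ (ht0D i) _ hx1' (h.negr' hi)⟩
        rw [mem_image]
        refine ⟨(x1', y1'), mem_product.2 ⟨hx1U, hy1U⟩, ?_⟩
        rw [← hd1', ← hz2]
        ext <;> simp
      calc (B.filter (fun z => z.2 = p2)).card
          ≤ ((U ×ˢ U).image (fun w : G × G => (p0 + (w.2 - w.1), p2))).card := card_le_card hsub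
        _ ≤ (U ×ˢ U).card := card_image_le
        _ = U.card * U.card := card_product _ _
        _ ≤ (4 * b) * (4 * b) := by gcongr
        _ = 16 * b ^ 2 := by ring
  calc m * (m - 4 * b ^ 2) ≤ A.card * (m - 4 * b ^ 2) := by
        gcongr
        exact hm p0 hp0
    _ ≤ B.card := hB_low
    _ ≤ 16 * b ^ 2 * S.card := hB_up

omit [AddCommGroup G] in
/-- degeneracy bounds the number of edges -/
theorem edges_le (r : G → G → Prop) (hsymm : ∀ a c, r a c → r c a) (K : ℕ) (P : Finset G)
    (hK : ∀ S ⊆ P, S.Nonempty → ∃ p ∈ S, (S.filter (fun p' => r p p')).card ≤ K) :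
    ((P ×ˢ P).filter (fun z => r z.1 z.2)).card ≤ 2 * K * P.card := by
  induction P using Finset.strongInduction with
  | H P ih =>
    rcases P.eq_empty_or_nonempty with rfl | hne
    · simp
    obtain ⟨p, hp, hdeg⟩ := hK P (Subset.refl _) hne
    have h1 := ih (P.erase p) (erase_ssubset hp)
      (fun S hS => hK S (hS.trans (erase_subset _ _)))
    have hsub : (P ×ˢ P).filter (fun z => r z.1 z.2) ⊆
        (((P.erase p) ×ˢ (P.erase p)).filter (fun z => r z.1 z.2)) ∪
        (((P.filter (fun p' => r p p')).image (fun p' => (p, p'))) ∪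
         ((P.filter (fun p' => r p p')).image (fun p' => (p', p)))) := by
      rintro ⟨a, c⟩ hz
      rw [mem_filter, mem_product] at hz
      obtain ⟨⟨ha, hc⟩, hr⟩ := hz
      rw [mem_union, mem_union]
      by_cases h2 : a = p
      · right; left
        rw [mem_image]
        exact ⟨c, mem_filter.2 ⟨hc, h2 ▸ hr⟩, by rw [h2]⟩
      · by_cases h3 : c = p
        · right; right
          rw [mem_image]
          exact ⟨a, mem_filter.2 ⟨ha, h3 ▸ hsymm _ _ hr⟩, by rw [h3]⟩
        · left
          rw [mem_filter, mem_product]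
          exact ⟨⟨mem_erase.2 ⟨h2, ha⟩, mem_erase.2 ⟨h3, hc⟩⟩, hr⟩
    have h4 := card_le_card hsub
    have h5 := card_union_le (((P.erase p) ×ˢ (P.erase p)).filter (fun z => r z.1 z.2))
        (((P.filter (fun p' => r p p')).image (fun p' => (p, p'))) ∪
         ((P.filter (fun p' => r p p')).image (fun p' => (p', p))))
    have h6 := card_union_le ((P.filter (fun p' => r p p')).image (fun p' => (p, p')))
      ((P.filter (fun p' => r p p')).image (fun p' => (p', p)))
    have h7 : ((P.filter (fun p' => r p p')).image (fun p' => (p, p'))).card ≤ K :=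
      card_image_le.trans hdeg
    have h8 : ((P.filter (fun p' => r p p')).image (fun p' => (p', p))).card ≤ K :=
      card_image_le.trans hdeg
    have h9 : (P.erase p).card + 1 = P.card := card_erase_add_one hp
    have h10 : 2 * K * P.card = 2 * K * (P.erase p).card + 2 * K := by rw [← h9]; ring
    omega

/-- the number of pairs -/
theorem DirSys.pairs_le (h : DirSys D rel b) (P : Finset G) (t : ℕ) (ht : P.card < t ^ 2) :
    ((P ×ˢ P).filter (fun z => Lk D rel (z.2 - z.1))).card ≤
      2 * (4 * b ^ 2 + 4 * b * t) * P.card := by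
  refine edges_le (fun a c => Lk D rel (c - a)) ?_ _ P ?_
  · intro a c hac
    have := h.Lk_neg hac
    rwa [neg_sub] at this
  · intro S hSP hS
    by_contra hcon
    push Not at hcon
    have h1 := h.pair_degree S hS (4 * b ^ 2 + 4 * b * t + 1) (fun p hp => hcon p hp)
    have h2 : 4 * b ^ 2 + 4 * b * t + 1 - 4 * b ^ 2 = 4 * b * t + 1 := by omega
    rw [h2] at h1
    have h3 : S.card < t ^ 2 := lt_of_le_of_lt (card_le_card hSP) ht
    have h4 : 16 * b ^ 2 * S.card ≤ 16 * b ^ 2 * t ^ 2 := by gcongr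
    nlinarith

/-- the number of centres with two related neighbours -/
theorem DirSys.related_le (h : DirSys D rel b) (P Q : Finset G) (t : ℕ) (ht : P.card < t ^ 2)
    (hQ : ∀ q ∈ Q, ∃ x ∈ D, ∃ y ∈ D, x ≠ y ∧ rel x y ∧ q + x ∈ P ∧ q + y ∈ P) :
    Q.card ≤ 4 * b ^ 2 * (2 * (4 * b ^ 2 + 4 * b * t) * P.card) := by
  choose! X hX Y hY hne hr hpX hpY using hQ
  refine le_trans ?_ (Nat.mul_le_mul_left (4 * b ^ 2) (h.pairs_le P t ht))
  refine card_le_mul_card_image_of_maps_to (f := fun q => (q + X q, q + Y q)) ?_ _ ?_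
  · intro q hq
    rw [mem_filter, mem_product]
    refine ⟨⟨hpX q hq, hpY q hq⟩, X q, hX q hq, Y q, hY q hq, hne q hq, hr q hq, ?_⟩
    simp
  · intro z _
    set T : Finset (Fin 2 → G) :=
      (Q.filter (fun q => (q + X q, q + Y q) = z)).image (fun q => ![Y q, -X q]) with hT
    have hinj : Set.InjOn (fun q => (![Y q, -X q] : Fin 2 → G))
        (Q.filter (fun q => (q + X q, q + Y q) = z)) := by
      intro q hq q' hq' he
      have hq2 := (mem_filter.1 (mem_coe.1 hq)).2
      have hq2' := (mem_filter.1 (mem_coe.1 hq')).2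
      have e1 : -X q = -X q' := congrFun he 1
      have e2 : X q = X q' := neg_injective e1
      have e3 : q + X q = q' + X q' := (Prod.ext_iff.1 (hq2.trans hq2'.symm)).1
      rw [e2] at e3
      exact add_right_cancel e3
    rw [← card_image_of_injOn hinj]
    have h1 := h.card_fiber (k := 2) (by norm_num) T ?_ (z.2 - z.1) ?_
    · calc T.card ≤ (2 * b) ^ 2 := h1
        _ = 4 * b ^ 2 := by ring
    · intro τ hτ
      rw [hT, mem_image] at hτ
      obtain ⟨q, hq, rfl⟩ := hτ
      obtain ⟨hqQ, _⟩ := mem_filter.1 hq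
      refine ⟨?_, ?_⟩
      · intro i
        fin_cases i
        · exact hY q hqQ
        · exact h.neg_mem _ (hX q hqQ)
      · refine h.nd_two (hY q hqQ) (h.neg_mem _ (hX q hqQ)) ?_
        rw [← sub_eq_add_neg, sub_ne_zero]
        exact (hne q hqQ).symm
    · intro τ hτ
      rw [hT, mem_image] at hτ
      obtain ⟨q, hq, rfl⟩ := hτ
      obtain ⟨hqQ, hqz⟩ := mem_filter.1 hq
      rw [Fin.sum_univ_two, ← hqz]
      change Y q + -X q = q + Y q - (q + X q)
      abel

end UCR
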