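import Mathlib
import Pool.Agent.UCR.Pairs

/-!
# UCR: centres with pairwise unrelated neighbours, and the main bound
-/

set_option autoImplicit false

namespace UCR

open Finset Classical

variable {G : Type*} [AddCommGroup G] {D : Set G} {rel : G → G → Prop} {b : ℕ}

/-- the elements of `Q` with at least three neighbours in `S` -/
noncomputable def rich (D : Set G) (Q S : Finset G) : Finset G :=
  Q.filter (fun q => 3 ≤ (S.filter (fun p => p - q ∈ D)).card)

/-- the degree bound -/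
theorem DirSys.trip_degree (h : DirSys D rel b) (Q S : Finset G)
    (hQ : ∀ q ∈ Q, ∀ x ∈ D, ∀ y ∈ D, q + x ∈ S → q + y ∈ S → x ≠ y → ¬ rel x y)
    (hS : S.Nonempty) (m : ℕ)
    (hm : ∀ p ∈ S, m ≤ ((rich D Q S).filter (fun q => p - q ∈ D)).card) :
    (m - 2 * b) ^ 2 ≤ 2 * ((4 * b) ^ 4 + 4 * b ^ 2) * S.card := by
  obtain ⟨F, hF1, hF2⟩ := h.exF
  obtain ⟨p0, hp0⟩ := hS
  -- the directions
  set U0 : Finset G := ((S ×ˢ Q).image (fun z : G × G => z.1 - z.2)).filter (fun x => x ∈ D)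
    with hU0
  set U : Finset G := U0 ∪ U0.image (fun x => -x) with hU
  have hUD : ∀ x ∈ U, x ∈ D := by
    intro x hx
    rw [hU, mem_union] at hx
    rcases hx with hx | hx
    · exact (mem_filter.1 hx).2
    · obtain ⟨y, hy, rfl⟩ := mem_image.1 hx
      exact h.neg_mem _ (mem_filter.1 hy).2
  have hUmem : ∀ p ∈ S, ∀ q ∈ Q, p - q ∈ D → p - q ∈ U ∧ q - p ∈ U := by
    intro p hp q hq hpq
    have h1 : p - q ∈ U0 := by
      rw [hU0, mem_filter, mem_image]
      exact ⟨⟨(p, q), mem_product.2 ⟨hp, hq⟩, rfl⟩, hpq⟩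
    refine ⟨mem_union_left _ h1, mem_union_right _ ?_⟩
    rw [mem_image]
    exact ⟨p - q, h1, by abel⟩
  set E : Finset (G × G) := (U ×ˢ U).filter (fun z => ¬ rel z.1 z.2 ∧ p0 + z.1 + z.2 ∈ S) with hE
  set W : Finset ((G × G) × G) := (E ×ˢ U).filter (fun z => ¬ rel z.1.1 z.2 ∧ ¬ rel z.1.2 z.2 ∧
    p0 + z.1.1 + z.1.2 + z.2 ∈ rich D Q S) with hW
  set W4 : Finset ((G × G) × G) := W.filter (fun z => ∃ x ∈ D, x ≠ -z.1.1 ∧ x ≠ -z.1.2 ∧
    x ≠ -z.2 ∧ p0 + z.1.1 + z.1.2 + z.2 + x ∈ S) with hW4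
  -- (1)
  have c1 : m ≤ E.card := by
    refine (hm p0 hp0).trans ?_
    have hex : ∀ q ∈ (rich D Q S).filter (fun q => p0 - q ∈ D), ∃ v, (q - p0, v) ∈ E := by
      intro q hq
      obtain ⟨hqr, hqD⟩ := mem_filter.1 hq
      obtain ⟨hqQ, hq3⟩ := mem_filter.1 hqr
      obtain ⟨p', hp', hne⟩ := exists_mem_ne (s := S.filter (fun p => p - q ∈ D)) (by omega) p0
      obtain ⟨hp'S, hp'D⟩ := mem_filter.1 hp'
      refine ⟨p' - q, ?_⟩
      rw [hE, mem_filter, mem_product]
      refine ⟨⟨(hUmem p0 hp0 q hqQ hqD).2, (hUmem p' hp'S q hqQ hp'D).1⟩, ?_, ?_⟩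
      · intro hr
        refine hQ q hqQ (p0 - q) hqD (p' - q) hp'D (by simpa using hp0) (by simpa using hp'S) ?_ ?_
        · intro he
          exact hne (sub_left_injective he).symm
        · have := h.negl _ _ hr
          simpa using this
      · have : p0 + (q - p0) + (p' - q) = p' := by abel
        rw [this]
        exact hp'S
    choose! V hV using hex
    refine card_le_card_of_injOn (fun q => (q - p0, V q)) (fun q hq => hV q hq) ?_
    intro q _ q' _ he
    exact sub_left_injective (Prod.ext_iff.1 he).1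
  -- (2)
  have c2 : ∀ e ∈ E, m - 2 * b ≤ (W.filter (fun z => z.1 = e)).card := by
    rintro ⟨u, v⟩ he
    obtain ⟨huv, hr, hpS⟩ := mem_filter.1 he
    obtain ⟨hu, hv⟩ := mem_product.1 huv
    simp only at hr hpS hu hv
    set p' := p0 + u + v with hp'
    have h1 := hm p' hpS
    have hsub : ((rich D Q S).filter (fun q => p' - q ∈ D)).image (fun q => q - p') ⊆
        (U.filter (fun w => ((u, v), w) ∈ W)) ∪ (F u ∪ F v) := by
      intro w hw
      obtain ⟨q, hq, rfl⟩ := mem_image.1 hw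
      obtain ⟨hqr, hqD⟩ := mem_filter.1 hq
      have hqQ : q ∈ Q := (mem_filter.1 hqr).1
      have hwU := (hUmem p' hpS q hqQ hqD).2
      have hwD := hUD _ hwU
      rw [mem_union, mem_union]
      by_cases h2 : rel u (q - p')
      · exact Or.inr (Or.inl (hF2 _ (hUD _ hu) _ hwD h2))
      · by_cases h3 : rel v (q - p')
        · exact Or.inr (Or.inr (hF2 _ (hUD _ hv) _ hwD h3))
        · left
          rw [mem_filter, hW, mem_filter, mem_product]
          refine ⟨hwU, ⟨he, hwU⟩, h2, h3, ?_⟩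
          simp only
          have : p0 + u + v + (q - p') = q := by rw [hp']; abel
          rw [this]
          exact hqr
    have h2 := card_le_card hsub
    rw [card_image_of_injective _ (sub_left_injective)] at h2
    have h3 := card_union_le (U.filter (fun w => ((u, v), w) ∈ W)) (F u ∪ F v)
    have h4 := card_union_le (F u) (F v)
    have h5 := hF1 u
    have h6 := hF1 v
    have h7 : (U.filter (fun w => ((u, v), w) ∈ W)).card ≤
        (W.filter (fun z => z.1 = (u, v))).card := by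
      refine card_le_card_of_injOn (fun w => ((u, v), w)) ?_ ?_
      · intro w hw
        exact mem_filter.2 ⟨(mem_filter.1 hw).2, rfl⟩
      · intro w _ w' _ hww
        exact (Prod.ext_iff.1 hww).2
    omega
  -- fibers of `W` over a set of pairs
  have cfib : ∀ E' ⊆ E, E'.card * (m - 2 * b) ≤ (W.filter (fun z => z.1 ∈ E')).card := by
    intro E' hE'
    calc E'.card * (m - 2 * b) = ∑ _e ∈ E', (m - 2 * b) := by simp
      _ ≤ ∑ e ∈ E', (W.filter (fun z => z.1 = e)).card := sum_le_sum fun e he => c2 e (hE' he)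
      _ = (E'.biUnion (fun e => W.filter (fun z => z.1 = e))).card := by
        rw [card_biUnion]
        intro e _ e' _ hne
        change Disjoint (W.filter (fun z => z.1 = e)) (W.filter (fun z => z.1 = e'))
        rw [Finset.disjoint_left]
        intro z hz1 hz2
        exact hne ((mem_filter.1 hz1).2.symm.trans (mem_filter.1 hz2).2)
      _ ≤ (W.filter (fun z => z.1 ∈ E')).card := by
        refine card_le_card (biUnion_subset.2 fun e he => ?_)
        intro z hz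
        obtain ⟨hz1, hz2⟩ := mem_filter.1 hz
        exact mem_filter.2 ⟨hz1, hz2 ▸ he⟩
  -- (3)
  have c3 : W4.card ≤ (4 * b) ^ 4 * S.card := by
    have hex : ∀ z ∈ W4, ∃ x ∈ D, x ≠ -z.1.1 ∧ x ≠ -z.1.2 ∧
      x ≠ -z.2 ∧ p0 + z.1.1 + z.1.2 + z.2 + x ∈ S := fun z hz => (mem_filter.1 hz).2
    choose! X hX hX1 hX2 hX3 hXS using hex
    have hWD : ∀ z ∈ W4, z.1.1 ∈ D ∧ z.1.2 ∈ D ∧ z.2 ∈ D ∧ ¬ rel z.1.1 z.1.2 ∧
        ¬ rel z.1.1 z.2 ∧ ¬ rel z.1.2 z.2 := by
      intro z hz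
      have hzW := (mem_filter.1 hz).1
      obtain ⟨hz1, hz2, hz3, _⟩ := mem_filter.1 hzW
      obtain ⟨hzE, hzU⟩ := mem_product.1 hz1
      obtain ⟨hzUU, hz4, _⟩ := mem_filter.1 hzE
      obtain ⟨hzu, hzv⟩ := mem_product.1 hzUU
      exact ⟨hUD _ hzu, hUD _ hzv, hUD _ hzU, hz4, hz2, hz3⟩
    set T : Finset (Fin 4 → G) := W4.image (fun z => ![z.1.1, z.1.2, z.2, X z]) with hT
    have hinj : Set.InjOn (fun z : (G × G) × G => (![z.1.1, z.1.2, z.2, X z] : Fin 4 → G)) W4 := by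
      intro z _ z' _ he
      have e0 : z.1.1 = z'.1.1 := congrFun he 0
      have e1 : z.1.2 = z'.1.2 := congrFun he 1
      have e2 : z.2 = z'.2 := congrFun he 2
      exact Prod.ext (Prod.ext e0 e1) e2
    rw [← card_image_of_injOn hinj]
    have h1 := h.card_tuples (k := 4) (by norm_num) T ?_ (S.image (fun p => p - p0)) ?_
    · exact h1.trans (Nat.mul_le_mul_left _ card_image_le)
    · intro τ hτ
      obtain ⟨z, hz, rfl⟩ := mem_image.1 hτ
      obtain ⟨d1, d2, d3, r1, r2, r3⟩ := hWD z hz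
      refine ⟨?_, h.nd_three d1 d2 d3 (hX z hz) r1 r2 r3 (hX1 z hz) (hX2 z hz) (hX3 z hz)⟩
      intro i
      fin_cases i
      · exact d1
      · exact d2
      · exact d3
      · exact hX z hz
    · intro τ hτ
      obtain ⟨z, hz, rfl⟩ := mem_image.1 hτ
      rw [mem_image]
      refine ⟨_, hXS z hz, ?_⟩
      rw [Fin.sum_univ_four]
      change p0 + z.1.1 + z.1.2 + z.2 + X z - p0 = z.1.1 + z.1.2 + z.2 + X z
      abel
  have cE : E.card ≤ 4 * b ^ 2 * S.card := by
    set T : Finset (Fin 2 → G) := E.image (fun z => ![z.1, z.2]) with hT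
    have hinj : Set.InjOn (fun z : G × G => (![z.1, z.2] : Fin 2 → G)) E := by
      intro z _ z' _ he
      exact Prod.ext (congrFun he 0) (congrFun he 1)
    have hED : ∀ z ∈ E, z.1 ∈ D ∧ z.2 ∈ D ∧ ¬ rel z.1 z.2 ∧ p0 + z.1 + z.2 ∈ S := by
      intro z hz
      obtain ⟨hz1, hz2, hz3⟩ := mem_filter.1 hz
      obtain ⟨hzu, hzv⟩ := mem_product.1 hz1
      exact ⟨hUD _ hzu, hUD _ hzv, hz2, hz3⟩
    rw [← card_image_of_injOn hinj]
    have h1 := h.card_tuples (k := 2) (by norm_num) T ?_ (S.image (fun p => p - p0)) ?_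
    · calc T.card ≤ (2 * b) ^ 2 * (S.image (fun p => p - p0)).card := h1
        _ ≤ (2 * b) ^ 2 * S.card := Nat.mul_le_mul_left _ card_image_le
        _ = 4 * b ^ 2 * S.card := by ring
    · intro τ hτ
      obtain ⟨z, hz, rfl⟩ := mem_image.1 hτ
      obtain ⟨d1, d2, r1, _⟩ := hED z hz
      refine ⟨?_, h.nd_two d1 d2 ?_⟩
      · intro i
        fin_cases i
        · exact d1
        · exact d2
      · intro h0
        have : z.2 = -z.1 := eq_neg_of_add_eq_zero_right h0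
        apply r1
        rw [this]
        exact h.negr (h.refl _ d1)
    · intro τ hτ
      obtain ⟨z, hz, rfl⟩ := mem_image.1 hτ
      obtain ⟨_, _, _, hs⟩ := hED z hz
      rw [mem_image]
      refine ⟨_, hs, ?_⟩
      rw [Fin.sum_univ_two]
      change p0 + z.1 + z.2 - p0 = z.1 + z.2
      abel
  -- (4)
  have c4 : ∀ z ∈ W \ W4, (z.1.1, z.2) ∈ E ∧ (z.1.2, z.2) ∈ E := by
    intro z hz
    obtain ⟨hzW, hz4⟩ := mem_sdiff.1 hz
    obtain ⟨hz1, hz2, hz3, hzr⟩ := mem_filter.1 hzW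
    obtain ⟨hzE, hzU⟩ := mem_product.1 hz1
    obtain ⟨hzUU, hz5, _⟩ := mem_filter.1 hzE
    obtain ⟨hzu, hzv⟩ := mem_product.1 hzUU
    obtain ⟨hqQ, hq3⟩ := mem_filter.1 hzr
    set q := p0 + z.1.1 + z.1.2 + z.2 with hq
    set N := S.filter (fun p => p - q ∈ D) with hN
    have hsub : N.image (fun p => p - q) ⊆ {-z.1.1, -z.1.2, -z.2} := by
      intro x hx
      obtain ⟨p, hp, rfl⟩ := mem_image.1 hx
      obtain ⟨hpS, hpD⟩ := mem_filter.1 hp
      by_contra hcon
      simp only [mem_insert, mem_singleton, not_or] at hcon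
      apply hz4
      rw [hW4, mem_filter]
      refine ⟨hzW, p - q, hpD, hcon.1, hcon.2.1, hcon.2.2, ?_⟩
      rw [← hq]
      simpa using hpS
    have hcard : N.card ≤ (N.image (fun p => p - q)).card := by
      rw [card_image_of_injective _ sub_left_injective]
    have heq : N.image (fun p => p - q) = {-z.1.1, -z.1.2, -z.2} := by
      refine eq_of_subset_of_card_le hsub ?_
      exact (card_le_three).trans (hq3.trans hcard)
    have hmem : ∀ x ∈ ({-z.1.1, -z.1.2, -z.2} : Finset G), q + x ∈ S := by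
      intro x hx
      rw [← heq, mem_image] at hx
      obtain ⟨p, hp, rfl⟩ := hx
      have := (mem_filter.1 hp).1
      simpa using this
    constructor
    · rw [hE, mem_filter, mem_product]
      refine ⟨⟨hzu, hzU⟩, hz2, ?_⟩
      have h1 := hmem (-z.1.2) (by simp)
      have h2 : q + -z.1.2 = p0 + z.1.1 + z.2 := by rw [hq]; abel
      rwa [h2] at h1
    · rw [hE, mem_filter, mem_product]
      refine ⟨⟨hzv, hzU⟩, hz3, ?_⟩
      have h1 := hmem (-z.1.1) (by simp)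
      have h2 : q + -z.1.1 = p0 + z.1.2 + z.2 := by rw [hq]; abel
      rwa [h2] at h1
  -- (5)
  by_contra hcon
  push Not at hcon
  set N := S.card with hNdef
  have hWbig : E.card * (m - 2 * b) ≤ W.card := by
    refine (cfib E (Subset.refl _)).trans (card_le_card (filter_subset _ _))
  have h5 : 2 * W4.card < W.card := by
    have e1 : (m - 2 * b) ^ 2 ≤ E.card * (m - 2 * b) := by
      rw [sq]
      gcongr
      omega
    have e2 : 2 * ((4 * b) ^ 4 + 4 * b ^ 2) * N = 2 * ((4 * b) ^ 4 * N) + 8 * b ^ 2 * N := by ring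
    have e3 : 2 * W4.card ≤ 2 * ((4 * b) ^ 4 * N) := by omega
    have e4 : 0 ≤ 8 * b ^ 2 * N := Nat.zero_le _
    omega
  have hsd : (W \ W4).card = W.card - W4.card := card_sdiff_of_subset (filter_subset _ _)
  -- a pair with many triangles
  obtain ⟨e, heE, he2⟩ : ∃ e ∈ E, m - 2 * b < 2 * ((W \ W4).filter (fun z => z.1 = e)).card := by
    by_contra hno
    push Not at hno
    have h6 : (W \ W4).card = ∑ e ∈ E, ((W \ W4).filter (fun z => z.1 = e)).card := by
      refine card_eq_sum_card_fiberwise ?_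
      intro z hz
      have hzW := (mem_sdiff.1 (mem_coe.1 hz)).1
      exact (mem_product.1 (mem_filter.1 hzW).1).1
    have h7 : 2 * (W \ W4).card ≤ E.card * (m - 2 * b) := by
      rw [h6, mul_sum]
      calc ∑ e ∈ E, 2 * ((W \ W4).filter (fun z => z.1 = e)).card
          ≤ ∑ _e ∈ E, (m - 2 * b) := sum_le_sum hno
        _ = E.card * (m - 2 * b) := by simp
    omega
  -- the star
  set St : Finset (G × G) := E.filter (fun z => z.1 = e.1) with hSt
  have hStc : ((W \ W4).filter (fun z => z.1 = e)).card ≤ St.card := by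
    refine card_le_card_of_injOn (fun z => (z.1.1, z.2)) ?_ ?_
    · intro z hz
      obtain ⟨hz1, hz2⟩ := mem_filter.1 (mem_coe.1 hz)
      have e1 : z.1.1 = e.1 := by rw [hz2]
      exact mem_filter.2 ⟨(c4 z hz1).1, e1⟩
    · intro z hz z' hz' he
      have e1 := (mem_filter.1 (mem_coe.1 hz)).2
      have e2 := (mem_filter.1 (mem_coe.1 hz')).2
      exact Prod.ext (e1.trans e2.symm) (Prod.ext_iff.1 he).2
  have h8 := cfib St (filter_subset _ _)
  have h9 : (W.filter (fun z => z.1 ∈ St)).card ≤ E.card + W4.card := by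
    have h10 : W.filter (fun z => z.1 ∈ St) ⊆ ((W \ W4).filter (fun z => z.1 ∈ St)) ∪ W4 := by
      intro z hz
      obtain ⟨hz1, hz2⟩ := mem_filter.1 hz
      rw [mem_union]
      by_cases h11 : z ∈ W4
      · exact Or.inr h11
      · exact Or.inl (mem_filter.2 ⟨mem_sdiff.2 ⟨hz1, h11⟩, hz2⟩)
    have h12 : ((W \ W4).filter (fun z => z.1 ∈ St)).card ≤ E.card := by
      refine card_le_card_of_injOn (fun z => (z.1.2, z.2)) ?_ ?_
      · intro z hz
        obtain ⟨hz1, _⟩ := mem_filter.1 (mem_coe.1 hz)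
        exact (c4 z hz1).2
      · intro z hz z' hz' he
        obtain ⟨_, hz2⟩ := mem_filter.1 (mem_coe.1 hz)
        obtain ⟨_, hz2'⟩ := mem_filter.1 (mem_coe.1 hz')
        have e1 := (mem_filter.1 hz2).2
        have e2 := (mem_filter.1 hz2').2
        have e3 := (Prod.ext_iff.1 he).1
        have e4 := (Prod.ext_iff.1 he).2
        exact Prod.ext (Prod.ext (e1.trans e2.symm) e3) e4
    calc (W.filter (fun z => z.1 ∈ St)).card
        ≤ (((W \ W4).filter (fun z => z.1 ∈ St)) ∪ W4).card := card_le_card h10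
      _ ≤ _ := card_union_le _ _
      _ ≤ E.card + W4.card := by omega
  have h13 : (m - 2 * b) ^ 2 ≤ 2 * (St.card * (m - 2 * b)) := by
    rw [sq, ← mul_assoc]
    gcongr
    omega
  have h14 : 2 * ((4 * b) ^ 4 + 4 * b ^ 2) * N = 2 * (4 * b ^ 2 * N + (4 * b) ^ 4 * N) := by ring
  omega

/-- degeneracy -/
theorem rich_le (Q : Finset G) (K : ℕ) (P : Finset G)
    (hK : ∀ S ⊆ P, S.Nonempty → ∃ p ∈ S, ((rich D Q S).filter (fun q => p - q ∈ D)).card ≤ K) :
    (rich D Q P).card ≤ K * P.card := by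
  induction P using Finset.strongInduction with
  | H P ih =>
    rcases P.eq_empty_or_nonempty with rfl | hne
    · simp [rich]
    obtain ⟨p, hp, hdeg⟩ := hK P (Subset.refl _) hne
    have h1 := ih (P.erase p) (erase_ssubset hp)
      (fun S hS => hK S (hS.trans (erase_subset _ _)))
    have hsub : rich D Q P ⊆ rich D Q (P.erase p) ∪ (rich D Q P).filter (fun q => p - q ∈ D) := by
      intro q hq
      rw [mem_union]
      by_cases h2 : p - q ∈ D
      · exact Or.inr (mem_filter.2 ⟨hq, h2⟩)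
      · left
        obtain ⟨hqQ, hq3⟩ := mem_filter.1 hq
        refine mem_filter.2 ⟨hqQ, hq3.trans (card_le_card ?_)⟩
        intro p' hp'
        obtain ⟨hp'P, hp'D⟩ := mem_filter.1 hp'
        refine mem_filter.2 ⟨mem_erase.2 ⟨?_, hp'P⟩, hp'D⟩
        rintro rfl
        exact h2 hp'D
    have h4 := (card_le_card hsub).trans (card_union_le _ _)
    have h9 : (P.erase p).card + 1 = P.card := card_erase_add_one hp
    have h10 : K * P.card = K * (P.erase p).card + K := by rw [← h9]; ring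
    omega

/-- the number of centres with pairwise unrelated neighbours -/
theorem DirSys.unrelated_le (h : DirSys D rel b) (P Q : Finset G) (t : ℕ) (ht : P.card < t ^ 2)
    (hQ : ∀ q ∈ Q, ∀ x ∈ D, ∀ y ∈ D, q + x ∈ P → q + y ∈ P → x ≠ y → ¬ rel x y) :
    (rich D Q P).card ≤ (2 * b + 23 * b ^ 2 * t) * P.card := by
  refine rich_le Q _ P ?_
  intro S hSP hS
  by_contra hcon
  push Not at hcon
  have h1 := h.trip_degree Q S (fun q hq x hx y hy hqx hqy => hQ q hq x hx y hy (hSP hqx) (hSP hqy))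
    hS (2 * b + 23 * b ^ 2 * t + 1) (fun p hp => hcon p hp)
  have h2 : 2 * b + 23 * b ^ 2 * t + 1 - 2 * b = 23 * b ^ 2 * t + 1 := by omega
  rw [h2] at h1
  have h3 : S.card < t ^ 2 := lt_of_le_of_lt (card_le_card hSP) ht
  rcases Nat.eq_zero_or_pos b with hb | hb
  · rw [hb] at h1
    simp at h1
  · have h4 : 2 * ((4 * b) ^ 4 + 4 * b ^ 2) ≤ 520 * b ^ 4 := by
      have : b ^ 2 ≤ b ^ 4 := Nat.pow_le_pow_right hb (by norm_num)
      calc 2 * ((4 * b) ^ 4 + 4 * b ^ 2) = 512 * b ^ 4 + 8 * b ^ 2 := by ring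
        _ ≤ 512 * b ^ 4 + 8 * b ^ 4 := by gcongr
        _ = 520 * b ^ 4 := by ring
    have h5 : 2 * ((4 * b) ^ 4 + 4 * b ^ 2) * S.card ≤ 520 * b ^ 4 * t ^ 2 :=
      Nat.mul_le_mul h4 h3.le
    have h6 : (23 * b ^ 2 * t + 1) ^ 2 = 529 * b ^ 4 * t ^ 2 + 46 * b ^ 2 * t + 1 := by ring
    rw [h6] at h1
    have h7 : 520 * b ^ 4 * t ^ 2 ≤ 529 * b ^ 4 * t ^ 2 := by gcongr; norm_num
    omega

/-- **Main bound.** -/
theorem DirSys.card_le (h : DirSys D rel b) (P Q : Finset G)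
    (hQ : ∀ q ∈ Q, 3 ≤ (P.filter (fun p => p - q ∈ D)).card) :
    (Q.card : ℝ) ≤ 144 * (b : ℝ) ^ 4 * (P.card : ℝ) ^ (3 / 2 : ℝ) := by
  set n := P.card with hn
  rcases Nat.eq_zero_or_pos n with hn0 | hn0
  · have hP : P = ∅ := card_eq_zero.1 hn0
    have hQe : Q = ∅ := by
      rw [eq_empty_iff_forall_notMem]
      intro q hq
      have := hQ q hq
      rw [hP] at this
      simp at this
    rw [hQe]
    simp only [card_empty, Nat.cast_zero]
    positivity
  set t := Nat.sqrt n + 1 with ht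
  have ht2 : n < t ^ 2 := by
    rw [ht, sq]
    exact Nat.lt_succ_sqrt n
  set Q1 : Finset G := Q.filter (fun q => ∀ x ∈ D, ∀ y ∈ D, q + x ∈ P → q + y ∈ P → x ≠ y →
    ¬ rel x y) with hQ1
  have h1 := h.unrelated_le P Q1 t ht2 (fun q hq => (mem_filter.1 hq).2)
  have h2 : rich D Q1 P = Q1 := by
    refine filter_true_of_mem ?_
    intro q hq
    exact hQ q (mem_filter.1 hq).1
  rw [h2] at h1
  have h3 := h.related_le P (Q \ Q1) t ht2 ?_
  · have h4 : Q.card ≤ Q1.card + (Q \ Q1).card := by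
      have hle : Q1 ⊆ Q := filter_subset _ _
      have h5 := card_sdiff_of_subset hle
      have h6 := card_le_card hle
      omega
    have h5 : Q.card ≤ ((2 * b + 23 * b ^ 2 * t) + 4 * b ^ 2 * (2 * (4 * b ^ 2 + 4 * b * t))) * n := by
      calc Q.card ≤ Q1.card + (Q \ Q1).card := h4
        _ ≤ (2 * b + 23 * b ^ 2 * t) * n + 4 * b ^ 2 * (2 * (4 * b ^ 2 + 4 * b * t) * n) := by
          gcongr
        _ = _ := by ring
    have hs1 : (1 : ℝ) ≤ Real.sqrt n := by
      rw [Real.one_le_sqrt]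
      exact_mod_cast hn0
    have htr : (t : ℝ) ≤ 2 * Real.sqrt n := by
      have h6 : ((Nat.sqrt n : ℕ) : ℝ) ≤ Real.sqrt n := Real.nat_sqrt_le_real_sqrt
      rw [ht]
      push_cast
      linarith
    have h7 : (n : ℝ) ^ (3 / 2 : ℝ) = n * Real.sqrt n := by
      have hn0' : (0 : ℝ) < n := by exact_mod_cast hn0
      rw [show (3 / 2 : ℝ) = 1 + 1 / 2 by norm_num, Real.rpow_add hn0', Real.rpow_one,
        Real.sqrt_eq_rpow]
    rw [h7]
    have h8 : (Q.card : ℝ) ≤ ((2 * (b : ℝ) + 23 * (b : ℝ) ^ 2 * t) +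
        4 * (b : ℝ) ^ 2 * (2 * (4 * (b : ℝ) ^ 2 + 4 * b * t))) * n := by exact_mod_cast h5
    refine h8.trans ?_
    rcases Nat.eq_zero_or_pos b with hb | hb
    · rw [hb]; simp
    have hb1 : (1 : ℝ) ≤ b := by exact_mod_cast hb
    have hb4 : (b : ℝ) ≤ (b : ℝ) ^ 4 := by
      calc (b : ℝ) = (b : ℝ) ^ 1 := (pow_one _).symm
        _ ≤ (b : ℝ) ^ 4 := pow_le_pow_right₀ hb1 (by norm_num)
    have hb24 : (b : ℝ) ^ 2 ≤ (b : ℝ) ^ 4 := pow_le_pow_right₀ hb1 (by norm_num)
    have hb34 : (b : ℝ) ^ 3 ≤ (b : ℝ) ^ 4 := pow_le_pow_right₀ hb1 (by norm_num)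
    have hkey : (2 * (b : ℝ) + 23 * (b : ℝ) ^ 2 * t) +
        4 * (b : ℝ) ^ 2 * (2 * (4 * (b : ℝ) ^ 2 + 4 * b * t)) ≤ 144 * (b : ℝ) ^ 4 * Real.sqrt n := by
      set s := Real.sqrt n with hsdef
      have g1 : 2 * (b : ℝ) ≤ 2 * (b : ℝ) ^ 4 * s := by nlinarith
      have g2 : 23 * (b : ℝ) ^ 2 * t ≤ 46 * (b : ℝ) ^ 4 * s := by
        calc 23 * (b : ℝ) ^ 2 * t ≤ 23 * (b : ℝ) ^ 4 * (2 * s) := by gcongr
          _ = 46 * (b : ℝ) ^ 4 * s := by ring
      have g3 : 32 * (b : ℝ) ^ 4 ≤ 32 * (b : ℝ) ^ 4 * s := by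
        have : 0 ≤ 32 * (b : ℝ) ^ 4 := by positivity
        nlinarith
      have g4 : 32 * (b : ℝ) ^ 3 * t ≤ 64 * (b : ℝ) ^ 4 * s := by
        calc 32 * (b : ℝ) ^ 3 * t ≤ 32 * (b : ℝ) ^ 4 * (2 * s) := by gcongr
          _ = 64 * (b : ℝ) ^ 4 * s := by ring
      calc (2 * (b : ℝ) + 23 * (b : ℝ) ^ 2 * t) +
        4 * (b : ℝ) ^ 2 * (2 * (4 * (b : ℝ) ^ 2 + 4 * b * t))
          = 2 * (b : ℝ) + 23 * (b : ℝ) ^ 2 * t + 32 * (b : ℝ) ^ 4 + 32 * (b : ℝ) ^ 3 * t := by ring
        _ ≤ 2 * (b : ℝ) ^ 4 * s + 46 * (b : ℝ) ^ 4 * s + 32 * (b : ℝ) ^ 4 * s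
            + 64 * (b : ℝ) ^ 4 * s := by linarith
        _ = 144 * (b : ℝ) ^ 4 * s := by ring
    calc ((2 * (b : ℝ) + 23 * (b : ℝ) ^ 2 * t) +
        4 * (b : ℝ) ^ 2 * (2 * (4 * (b : ℝ) ^ 2 + 4 * b * t))) * n
        ≤ (144 * (b : ℝ) ^ 4 * Real.sqrt n) * n := by gcongr
      _ = 144 * (b : ℝ) ^ 4 * (n * Real.sqrt n) := by ring
  · intro q hq
    obtain ⟨hqQ, hq1⟩ := mem_sdiff.1 hq
    by_contra hcon
    apply hq1
    rw [hQ1, mem_filter]
    refine ⟨hqQ, ?_⟩
    intro x hx y hy hqx hqy hne hr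
    exact hcon ⟨x, hx, y, hy, hne, hr, hqx, hqy⟩

end UCR
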