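import Mathlib
import Pool.Agent.UCR.Defs
import Pool.Agent.UCR.Mann
import Pool.Agent.UCR.Trip

/-!
# UCR: the direction system of all products of roots of unity and elements of a set `B` which is linearly
independent over the field generated by the roots of unity
-/

set_option autoImplicit false

namespace UCR

open Finset

theorem dirs_sys (B : Set ℂ) (h0 : ∀ b ∈ B, b ≠ 0)
    (hlin : LinearIndependent Qab (fun b : B => (b : ℂ))) :
    DirSys (dirs B) (fun u v => u ^ 210 = v ^ 210) 210 where
  neg_mem := by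
    rintro u ⟨b, hb, N, hN, hu⟩
    refine ⟨b, hb, 2 * N, by omega, ?_⟩
    rw [pow_mul, neg_sq, ← pow_mul, mul_comm, pow_mul, hu, ← pow_mul]
  zero_not := by
    rintro ⟨b, hb, N, hN, hu⟩
    rw [zero_pow hN.ne'] at hu
    exact pow_ne_zero N (h0 b hb) hu.symm
  refl := fun u _ => rfl
  symm := fun u v h => h.symm
  negl := fun u v h => by
    have : (-u) ^ 210 = u ^ 210 := Even.neg_pow (by decide) u
    rw [this]
    exact h
  fin := by
    classical
    intro u _
    refine ⟨(Polynomial.nthRoots 210 (u ^ 210)).toFinset, ?_, ?_⟩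
    · exact (Multiset.toFinset_card_le _).trans (Polynomial.card_nthRoots 210 _)
    · intro v _ hv
      rw [Multiset.mem_toFinset, Polynomial.mem_nthRoots (by norm_num)]
      exact hv.symm
  min := by
    classical
    intro ι _ I f hcard hfD hsum hmin i hi j hj
    -- choose representatives
    have hex : ∀ k : ι, ∃ β : B, k ∈ I → ∃ N : ℕ, 0 < N ∧ f k ^ N = (β : ℂ) ^ N := by
      intro k
      by_cases hk : k ∈ I
      · obtain ⟨b, hb, N, hN, h⟩ := hfD k hk
        exact ⟨⟨b, hb⟩, fun _ => ⟨N, hN, h⟩⟩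
      · obtain ⟨b, hb, _⟩ := hfD i hi
        exact ⟨⟨b, hb⟩, fun h => absurd h hk⟩
    choose β hβ using hex
    have hβ0 : ∀ k, (β k : ℂ) ≠ 0 := fun k => h0 _ (β k).2
    have hroot : ∀ k ∈ I, ∃ N : ℕ, 0 < N ∧ (f k / β k) ^ N = 1 := by
      intro k hk
      obtain ⟨N, hN, h⟩ := hβ k hk
      exact ⟨N, hN, by rw [div_pow, h, div_self (pow_ne_zero _ (hβ0 k))]⟩
    set ζ : ι → Qab := fun k => if hk : k ∈ I then
      ⟨f k / β k, Subfield.subset_closure (hroot k hk)⟩ else 0 with hζ
    have hζv : ∀ k ∈ I, ((ζ k : Qab) : ℂ) = f k / β k := by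
      intro k hk
      rw [hζ]
      simp only [hk, dif_pos]
    have hζb : ∀ k ∈ I, (ζ k) • (β k : ℂ) = f k := by
      intro k hk
      have : (ζ k) • (β k : ℂ) = (ζ k : ℂ) * (β k : ℂ) := rfl
      rw [this, hζv k hk, div_mul_cancel₀ _ (hβ0 k)]
    set g : B → Qab := fun x => ∑ k ∈ I.filter (fun k => β k = x), ζ k with hg
    have hlin' := linearIndependent_iff'.1 hlin (I.image β) g (by
      have h1 : ∀ x ∈ I.image β, g x • (x : ℂ) = ∑ k ∈ I.filter (fun k => β k = x), f k := by
        intro x _
        rw [hg, sum_smul]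
        refine sum_congr rfl fun k hk => ?_
        obtain ⟨hkI, hkx⟩ := mem_filter.1 hk
        rw [← hζb k hkI, hkx]
      rw [sum_congr rfl h1, sum_fiberwise_of_maps_to (fun k hk => mem_image_of_mem β hk), hsum])
    have hgi := hlin' (β i) (mem_image_of_mem β hi)
    set J := I.filter (fun k => β k = β i) with hJ
    have hJsum : ∑ k ∈ J, f k = 0 := by
      have h1 : ∑ k ∈ J, f k = g (β i) • (β i : ℂ) := by
        rw [hg, sum_smul]
        refine sum_congr rfl fun k hk => ?_
        obtain ⟨hkI, hkx⟩ := mem_filter.1 hk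
        rw [← hζb k hkI, hkx]
      rw [h1, hgi, zero_smul]
    have hJI : J = I := by
      by_contra hne
      have hss : J ⊂ I := ⟨filter_subset _ _, fun h3 =>
        hne (Subset.antisymm (filter_subset _ _) h3)⟩
      exact hmin J hss ⟨i, mem_filter.2 ⟨hi, rfl⟩⟩ hJsum
    have hall : ∀ k ∈ I, β k = β i := by
      intro k hk
      rw [← hJI] at hk
      exact (mem_filter.1 hk).2
    set w : ℂ := (β i : ℂ) with hw
    have hw0 : w ≠ 0 := hβ0 i
    have hm := mann I (fun k => f k / w) hcard (by
        intro k hk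
        have := hroot k hk
        rw [hall k hk] at this
        exact this) (by rw [← sum_div, hsum, zero_div]) (by
        intro J' hJ' hne h
        rw [← sum_div, div_eq_zero_iff] at h
        rcases h with h | h
        · exact hmin J' hJ' hne h
        · exact hw0 h) i hi j hj
    simp only [div_pow] at hm
    exact (div_left_inj' (pow_ne_zero 210 hw0)).1 hm

/-- a set all of whose finite subsets have at most `R` elements is finite with `ncard ≤ R` -/
theorem ncard_of_finset (S : Set ℂ) (R : ℝ) (h : ∀ Q : Finset ℂ, (Q : Set ℂ) ⊆ S → (Q.card : ℝ) ≤ R) :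
    S.Finite ∧ (S.ncard : ℝ) ≤ R := by
  have hfin : S.Finite := by
    by_contra hinf
    obtain ⟨m, hm⟩ := exists_nat_gt R
    obtain ⟨Q, hQ, hQc⟩ := Set.Infinite.exists_subset_card_eq hinf m
    have := h Q hQ
    rw [hQc] at this
    linarith
  refine ⟨hfin, ?_⟩
  rw [Set.ncard_eq_toFinset_card S hfin]
  exact h _ (by simp)

/-- the upper bound for the number of centres, for a general direction system in the plane -/
theorem centres_le {D : Set ℂ} {rel : ℂ → ℂ → Prop} {b : ℕ} (h : DirSys D rel b) (P : Finset ℂ) :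
    (centres D P).Finite ∧
      ((centres D P).ncard : ℝ) ≤ 144 * (b : ℝ) ^ 4 * (P.card : ℝ) ^ (3 / 2 : ℝ) := by
  classical
  refine ncard_of_finset _ _ fun Q hQ => h.card_le P Q ?_
  intro q hq
  have h1 := hQ (Finset.mem_coe.2 hq)
  rw [centres, Set.mem_ofPred_eq] at h1
  have h2 : {p : ℂ | p ∈ P ∧ p - q ∈ D} = ((P.filter (fun p => p - q ∈ D) : Finset ℂ) : Set ℂ) := by
    ext p
    simp
  rw [h2, Set.ncard_coe_finset] at h1
  convert h1

end UCR
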