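import Mathlib
import Pool.Agent.UCR.Rat

/-!
# UCR: unit circles through points of a lattice spanned by algebraically independent unit vectors
-/

set_option autoImplicit false

namespace UCR

open Finset MvPolynomial

section ev

variable {K : Type*} [Field K] [Algebra K ℝ] {ι : Type*} [DecidableEq ι]

/-- the value of a linear form -/
noncomputable def ev (S : Finset ι) (a : ι → K) (w : ι → ℂ) : ℂ :=
  ∑ i ∈ S, algebraMap K ℂ (a i) * w i

/-- the value of the reciprocal linear form -/
noncomputable def evs (S : Finset ι) (a : ι → K) (w : ι → ℂ) : ℂ :=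
  ∑ i ∈ S, algebraMap K ℂ (a i) * (w i)⁻¹

/-- the linear form -/
noncomputable def Lp (S : Finset ι) (a : ι → K) : MvPolynomial ι K := ∑ i ∈ S, C (a i) * X i

/-- the numerator of the reciprocal linear form -/
noncomputable def Mp (S : Finset ι) (a : ι → K) : MvPolynomial ι K :=
  ∑ i ∈ S, C (a i) * ∏ j ∈ S.erase i, X j

theorem aeval_Lp (S : Finset ι) (a : ι → K) (w : ι → ℂ) : aeval w (Lp S a) = ev S a w := by
  rw [Lp, ev, map_sum]
  refine sum_congr rfl fun i _ => ?_
  rw [map_mul, aeval_C, aeval_X]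

theorem aeval_Mp (S : Finset ι) (a : ι → K) (w : ι → ℂ) (hw : ∀ i ∈ S, w i ≠ 0) :
    aeval w (Mp S a) = (∏ i ∈ S, w i) * evs S a w := by
  rw [Mp, evs, map_sum, mul_sum]
  refine sum_congr rfl fun i hi => ?_
  rw [map_mul, aeval_C, map_prod]
  simp only [aeval_X]
  rw [← mul_prod_erase S w hi]
  have := hw i hi
  field_simp

theorem subst {z : ι → ℂ} (hz : AlgebraicIndependent K z) (F : MvPolynomial ι K)
    (hF : aeval z F = 0) (w : ι → ℂ) : aeval w F = 0 := by
  rw [hz.eq_zero_of_aeval_eq_zero F hF, map_zero]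

theorem id1 {z : ι → ℂ} (hz : AlgebraicIndependent K z) (S : Finset ι) (hz0 : ∀ i ∈ S, z i ≠ 0)
    (a b : ι → K)
    (h : (ev S a z * evs S b z - evs S a z * ev S b z) ^ 2 + ev S a z * ev S b z *
      (ev S a z + ev S b z) * evs S a z * evs S b z * (evs S a z + evs S b z) = 0)
    (w : ι → ℂ) (hw : ∀ i ∈ S, w i ≠ 0) :
    (ev S a w * evs S b w - evs S a w * ev S b w) ^ 2 + ev S a w * ev S b w *
      (ev S a w + ev S b w) * evs S a w * evs S b w * (evs S a w + evs S b w) = 0 := by
  set F : MvPolynomial ι K := (∏ i ∈ S, X i) * (Lp S a * Mp S b - Mp S a * Lp S b) ^ 2 +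
    Lp S a * Lp S b * (Lp S a + Lp S b) * Mp S a * Mp S b * (Mp S a + Mp S b) with hF
  have hev : ∀ w : ι → ℂ, (∀ i ∈ S, w i ≠ 0) → aeval w F = (∏ i ∈ S, w i) ^ 3 *
      ((ev S a w * evs S b w - evs S a w * ev S b w) ^ 2 + ev S a w * ev S b w *
      (ev S a w + ev S b w) * evs S a w * evs S b w * (evs S a w + evs S b w)) := by
    intro w hw
    rw [hF]
    simp only [map_add, map_mul, map_sub, map_pow, map_prod, aeval_X, aeval_Lp, aeval_Mp S _ w hw]
    ring
  have h1 := subst hz F (by rw [hev z hz0, h, mul_zero]) w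
  rw [hev w hw] at h1
  exact (mul_eq_zero.1 h1).resolve_left (pow_ne_zero _ (prod_ne_zero_iff.2 hw))

theorem id2 {z : ι → ℂ} (hz : AlgebraicIndependent K z) (S : Finset ι) (hz0 : ∀ i ∈ S, z i ≠ 0)
    (a : ι → K) (r : K) (h : ev S a z * evs S a z = algebraMap K ℂ r)
    (w : ι → ℂ) (hw : ∀ i ∈ S, w i ≠ 0) : ev S a w * evs S a w = algebraMap K ℂ r := by
  set F : MvPolynomial ι K := Lp S a * Mp S a - C r * ∏ i ∈ S, X i with hF
  have hev : ∀ w : ι → ℂ, (∀ i ∈ S, w i ≠ 0) → aeval w F = (∏ i ∈ S, w i) *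
      (ev S a w * evs S a w - algebraMap K ℂ r) := by
    intro w hw
    rw [hF]
    simp only [map_mul, map_sub, map_prod, aeval_X, aeval_C, aeval_Lp, aeval_Mp S _ w hw]
    ring
  have h1 := subst hz F (by rw [hev z hz0, h, sub_self, mul_zero]) w
  rw [hev w hw] at h1
  exact sub_eq_zero.1 ((mul_eq_zero.1 h1).resolve_left (prod_ne_zero_iff.2 hw))

theorem ev_update (S : Finset ι) (a : ι → K) (z : ι → ℂ) (i : ι) (hi : i ∈ S) (ρ : ℂ) :
    ev S a (Function.update z i ρ) = algebraMap K ℂ (a i) * ρ + ev (S.erase i) a z := by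
  rw [ev, ev, ← add_sum_erase S _ hi, Function.update_self]
  congr 1
  refine sum_congr rfl fun j hj => ?_
  rw [Function.update_of_ne (ne_of_mem_erase hj)]

theorem evs_update (S : Finset ι) (a : ι → K) (z : ι → ℂ) (i : ι) (hi : i ∈ S) (ρ : ℂ) :
    evs S a (Function.update z i ρ) = algebraMap K ℂ (a i) * ρ⁻¹ + evs (S.erase i) a z := by
  rw [evs, evs, ← add_sum_erase S _ hi, Function.update_self]
  congr 1
  refine sum_congr rfl fun j hj => ?_
  rw [Function.update_of_ne (ne_of_mem_erase hj)]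

theorem ev_split (S : Finset ι) (a : ι → K) (z : ι → ℂ) (i : ι) (hi : i ∈ S) :
    ev S a z = algebraMap K ℂ (a i) * z i + ev (S.erase i) a z := by
  rw [ev, ev, ← add_sum_erase S _ hi]

theorem evs_split (S : Finset ι) (a : ι → K) (z : ι → ℂ) (i : ι) (hi : i ∈ S) :
    evs S a z = algebraMap K ℂ (a i) * (z i)⁻¹ + evs (S.erase i) a z := by
  rw [evs, evs, ← add_sum_erase S _ hi]

theorem li {z : ι → ℂ} (hz : AlgebraicIndependent K z) (S : Finset ι) (a : ι → K)
    (h : ev S a z = 0) (i : ι) (hi : i ∈ S) : a i = 0 := by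
  have h1 := linearIndependent_iff'.1 hz.linearIndependent S a (by
    rw [← h, ev]
    refine sum_congr rfl fun i _ => ?_
    rw [Algebra.smul_def])
  exact h1 i hi

theorem inj {x y : K} (h : algebraMap K ℂ x = algebraMap K ℂ y) : x = y :=
  (algebraMap K ℂ).injective h

theorem conj_alg (x : K) : (starRingEnd ℂ) (algebraMap K ℂ x) = algebraMap K ℂ x :=
  Complex.conj_eq_iff_re.mpr rfl

theorem conj_unit {u : ℂ} (hu : ‖u‖ = 1) : (starRingEnd ℂ) u = u⁻¹ := by
  have h0 : u ≠ 0 := by
    rintro rfl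
    rw [norm_zero] at hu
    exact zero_ne_one hu
  have h1 : u * (starRingEnd ℂ) u = 1 := by
    rw [Complex.mul_conj, Complex.normSq_eq_norm_sq, hu]
    norm_num
  field_simp
  rw [mul_comm]
  exact h1

theorem conj_ev {z : ι → ℂ} (hn : ∀ i, ‖z i‖ = 1) (S : Finset ι) (a : ι → K) :
    (starRingEnd ℂ) (ev S a z) = evs S a z := by
  rw [ev, evs, map_sum]
  refine sum_congr rfl fun i _ => ?_
  rw [map_mul, conj_alg, conj_unit (hn i)]

/-- the key classification step -/
theorem classA {z : ι → ℂ} (hz : AlgebraicIndependent K z) (hn : ∀ i, ‖z i‖ = 1) (S : Finset ι)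
    (a b : ι → K)
    (h : (ev S a z * evs S b z - evs S a z * ev S b z) ^ 2 + ev S a z * ev S b z *
      (ev S a z + ev S b z) * evs S a z * evs S b z * (evs S a z + evs S b z) = 0)
    (hne : ev S a z * ev S b z * (ev S a z + ev S b z) ≠ 0)
    (i j : ι) (hi : i ∈ S) (hj : j ∈ S) (hij : j ≠ i) (hai : a i ≠ 0) (haj : a j ≠ 0) :
    a i ^ 2 = a j ^ 2 ∧ ∀ k ∈ S, k ≠ i → k ≠ j → a k = 0 := by
  have hz0 : ∀ i, z i ≠ 0 := by
    intro i h
    have := hn i
    rw [h, norm_zero] at this
    exact zero_ne_one this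
  have hai' : algebraMap K ℂ (a i) ≠ 0 := fun h => hai (inj (by rw [h, map_zero]))
  have haj' : algebraMap K ℂ (a j) ≠ 0 := fun h => haj (inj (by rw [h, map_zero]))
  have hjS : j ∈ S.erase i := mem_erase.2 ⟨hij, hj⟩
  set x' := ev (S.erase i) a z with hx'
  have hx'0 : x' ≠ 0 := fun h0 => haj (li hz _ a h0 j hjS)
  set ρ : ℂ := -x' / algebraMap K ℂ (a i) with hρ
  have hρ0 : ρ ≠ 0 := div_ne_zero (neg_ne_zero.2 hx'0) hai'
  have h1 := id1 hz S (fun i _ => hz0 i) a b h (Function.update z i ρ) (by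
    intro k _
    rcases eq_or_ne k i with rfl | hk
    · rw [Function.update_self]; exact hρ0
    · rw [Function.update_of_ne hk]; exact hz0 k)
  have e1 : ev S a (Function.update z i ρ) = 0 := by
    rw [ev_update S a z i hi, ← hx', hρ]
    field_simp
    ring
  rw [e1] at h1
  have h2 : evs S a (Function.update z i ρ) * ev S b (Function.update z i ρ) = 0 := by
    have : (evs S a (Function.update z i ρ) * ev S b (Function.update z i ρ)) ^ 2 = 0 := by
      linear_combination h1
    exact pow_eq_zero_iff (two_ne_zero) |>.1 this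
  rcases mul_eq_zero.1 h2 with h3 | h3
  · -- `x' * conj x' = (a i) ^ 2`
    rw [evs_update S a z i hi] at h3
    have h4 : x' * evs (S.erase i) a z = algebraMap K ℂ (a i ^ 2) := by
      have h5 : ρ⁻¹ = - algebraMap K ℂ (a i) / x' := by
        rw [hρ]
        field_simp
      rw [h5] at h3
      rw [map_pow]
      field_simp at h3
      linear_combination h3
    have hothers : ∀ k ∈ S, k ≠ i → k ≠ j → a k = 0 := by
      intro k hk hki hkj
      by_contra hak
      have hkS : k ∈ (S.erase i).erase j := mem_erase.2 ⟨hkj, mem_erase.2 ⟨hki, hk⟩⟩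
      set x'' := ev ((S.erase i).erase j) a z with hx''
      have hx''0 : x'' ≠ 0 := fun h0 => hak (li hz _ a h0 k hkS)
      set ρ1 : ℂ := -x'' / algebraMap K ℂ (a j) with hρ1
      have hρ10 : ρ1 ≠ 0 := div_ne_zero (neg_ne_zero.2 hx''0) haj'
      have h6 := id2 hz (S.erase i) (fun i _ => hz0 i) a _ h4 (Function.update z j ρ1) (by
        intro k _
        rcases eq_or_ne k j with rfl | hk
        · rw [Function.update_self]; exact hρ10
        · rw [Function.update_of_ne hk]; exact hz0 k)
      have e2 : ev (S.erase i) a (Function.update z j ρ1) = 0 := by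
        rw [ev_update (S.erase i) a z j hjS, ← hx'', hρ1]
        field_simp
        ring
      rw [e2, zero_mul, map_pow] at h6
      exact pow_ne_zero 2 hai' h6.symm
    refine ⟨?_, hothers⟩
    have h7 : ∀ k ∈ (S.erase i).erase j, a k = 0 := by
      intro k hk
      obtain ⟨hkj, hk2⟩ := mem_erase.1 hk
      obtain ⟨hki, hk3⟩ := mem_erase.1 hk2
      exact hothers k hk3 hki hkj
    have h8 : ev ((S.erase i).erase j) a z = 0 :=
      sum_eq_zero fun k hk => by rw [h7 k hk, map_zero, zero_mul]
    have h9 : evs ((S.erase i).erase j) a z = 0 :=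
      sum_eq_zero fun k hk => by rw [h7 k hk, map_zero, zero_mul]
    rw [hx', ev_split _ a z j hjS, evs_split _ a z j hjS, h8, h9, add_zero, add_zero] at h4
    apply inj
    rw [← h4, map_pow]
    have := hz0 j
    field_simp
  · -- `y` is a multiple of `x`
    exfalso
    rw [ev_update S b z i hi] at h3
    have h4 : ev (S.erase i) (fun k => a i * b k - b i * a k) z = 0 := by
      have h5 : ev (S.erase i) (fun k => a i * b k - b i * a k) z =
          algebraMap K ℂ (a i) * ev (S.erase i) b z - algebraMap K ℂ (b i) * x' := by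
        rw [hx', ev, ev, ev, mul_sum, mul_sum, ← sum_sub_distrib]
        refine sum_congr rfl fun k _ => ?_
        rw [map_sub, map_mul, map_mul]
        ring
      rw [h5]
      have h6 : ρ * algebraMap K ℂ (a i) = -x' := by
        rw [hρ]
        field_simp
      linear_combination algebraMap K ℂ (a i) * h3 - algebraMap K ℂ (b i) * h6
    have h5 : ∀ k ∈ S, a i * b k = b i * a k := by
      intro k hk
      rcases eq_or_ne k i with rfl | hki
      · ring
      · exact sub_eq_zero.1 (li hz _ _ h4 k (mem_erase.2 ⟨hki, hk⟩))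
    have h6 : algebraMap K ℂ (a i) * ev S b z = algebraMap K ℂ (b i) * ev S a z := by
      rw [ev, ev, mul_sum, mul_sum]
      refine sum_congr rfl fun k hk => ?_
      rw [← mul_assoc, ← map_mul, h5 k hk, map_mul]
      ring
    have h7 : algebraMap K ℂ (a i) * evs S b z = algebraMap K ℂ (b i) * evs S a z := by
      rw [evs, evs, mul_sum, mul_sum]
      refine sum_congr rfl fun k hk => ?_
      rw [← mul_assoc, ← map_mul, h5 k hk, map_mul]
      ring
    have h8 : ev S a z * evs S b z - evs S a z * ev S b z = 0 := by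
      have : algebraMap K ℂ (a i) * (ev S a z * evs S b z - evs S a z * ev S b z) = 0 := by
        linear_combination ev S a z * h7 - evs S a z * h6
      exact (mul_eq_zero.1 this).resolve_left hai'
    rw [h8] at h
    have h9 : (ev S a z * ev S b z * (ev S a z + ev S b z)) *
        (starRingEnd ℂ) (ev S a z * ev S b z * (ev S a z + ev S b z)) = 0 := by
      rw [map_mul, map_mul, map_add, conj_ev hn, conj_ev hn]
      linear_combination h
    rcases mul_eq_zero.1 h9 with h10 | h10
    · exact hne h10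
    · exact hne ((map_eq_zero _).1 h10)

/-- the difference of two unit vectors of a triple is a multiple of `z i ± z j` -/
theorem typeOf {z : ι → ℂ} (hz : AlgebraicIndependent K z) (hn : ∀ i, ‖z i‖ = 1) {u1 u2 u3 : ℂ}
    (n1 : ‖u1‖ = 1) (n2 : ‖u2‖ = 1) (n3 : ‖u3‖ = 1) (d12 : u1 ≠ u2) (d23 : u2 ≠ u3) (d13 : u1 ≠ u3)
    (m12 : u1 - u2 ∈ Submodule.span K (Set.range z))
    (m23 : u2 - u3 ∈ Submodule.span K (Set.range z)) :
    ∃ (i j : ι) (α s : K), α ≠ 0 ∧ (s = 1 ∨ s = -1) ∧ (i = j → s = 1) ∧
      u1 - u2 = algebraMap K ℂ α * (z i + algebraMap K ℂ s * z j) := by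
  have hchar : CharZero K := (algebraMap K ℝ).charZero
  rw [Finsupp.mem_span_range_iff_exists_finsupp] at m12 m23
  obtain ⟨a, ha⟩ := m12
  obtain ⟨b, hb⟩ := m23
  set S : Finset ι := a.support ∪ b.support with hS
  have ea : ev S a z = u1 - u2 := by
    rw [← ha, ev, Finsupp.sum_of_support_subset a (s := S) subset_union_left _ (by simp)]
    refine sum_congr rfl fun i _ => ?_
    rw [Algebra.smul_def]
  have eb : ev S b z = u2 - u3 := by
    rw [← hb, ev, Finsupp.sum_of_support_subset b (s := S) subset_union_right _ (by simp)]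
    refine sum_congr rfl fun i _ => ?_
    rw [Algebra.smul_def]
  have z1 : u1 ≠ 0 := by
    rintro rfl
    rw [norm_zero] at n1
    exact zero_ne_one n1
  have z2 : u2 ≠ 0 := by
    rintro rfl
    rw [norm_zero] at n2
    exact zero_ne_one n2
  have z3 : u3 ≠ 0 := by
    rintro rfl
    rw [norm_zero] at n3
    exact zero_ne_one n3
  have eas : evs S a z = u1⁻¹ - u2⁻¹ := by
    rw [← conj_ev hn, ea, map_sub, conj_unit n1, conj_unit n2]
  have ebs : evs S b z = u2⁻¹ - u3⁻¹ := by
    rw [← conj_ev hn, eb, map_sub, conj_unit n2, conj_unit n3]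
  have hid : (ev S a z * evs S b z - evs S a z * ev S b z) ^ 2 + ev S a z * ev S b z *
      (ev S a z + ev S b z) * evs S a z * evs S b z * (evs S a z + evs S b z) = 0 := by
    rw [ea, eb, eas, ebs]
    field_simp
    ring
  have hne : ev S a z * ev S b z * (ev S a z + ev S b z) ≠ 0 := by
    rw [ea, eb]
    refine mul_ne_zero (mul_ne_zero (sub_ne_zero.2 d12) (sub_ne_zero.2 d23)) ?_
    have : u1 - u2 + (u2 - u3) = u1 - u3 := by ring
    rw [this]
    exact sub_ne_zero.2 d13
  obtain ⟨i, hi, hai⟩ : ∃ i ∈ S, a i ≠ 0 := by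
    by_contra hcon
    push Not at hcon
    apply sub_ne_zero.2 d12
    rw [← ea, ev]
    exact sum_eq_zero fun k hk => by rw [hcon k hk, map_zero, zero_mul]
  by_cases hex : ∃ j ∈ S, j ≠ i ∧ a j ≠ 0
  · obtain ⟨j, hj, hji, haj⟩ := hex
    obtain ⟨h1, h2⟩ := classA hz hn S a b hid hne i j hi hj hji hai haj
    refine ⟨i, j, a i, a j / a i, hai, ?_, fun h => absurd h.symm hji, ?_⟩
    · have h3 : (a j / a i) ^ 2 = 1 := by
        rw [div_pow, h1, div_self (pow_ne_zero 2 haj)]
      have h4 : (a j / a i - 1) * (a j / a i + 1) = 0 := by linear_combination h3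
      rcases mul_eq_zero.1 h4 with h5 | h5
      · exact Or.inl (sub_eq_zero.1 h5)
      · exact Or.inr (eq_neg_of_add_eq_zero_left h5)
    · have hjS : j ∈ S.erase i := mem_erase.2 ⟨hji, hj⟩
      have h8 : ev ((S.erase i).erase j) a z = 0 := by
        refine sum_eq_zero fun k hk => ?_
        obtain ⟨hkj, hk2⟩ := mem_erase.1 hk
        obtain ⟨hki, hk3⟩ := mem_erase.1 hk2
        rw [h2 k hk3 hki hkj, map_zero, zero_mul]
      rw [← ea, ev_split S a z i hi, ev_split _ a z j hjS, h8, map_div₀]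
      have hai' : algebraMap K ℂ (a i) ≠ 0 := fun h => hai (inj (by rw [h, map_zero]))
      field_simp
      ring
  · push Not at hex
    refine ⟨i, i, a i / 2, 1, div_ne_zero hai two_ne_zero, Or.inl rfl, fun _ => rfl, ?_⟩
    have h8 : ev (S.erase i) a z = 0 := by
      refine sum_eq_zero fun k hk => ?_
      obtain ⟨hki, hk3⟩ := mem_erase.1 hk
      rw [hex k hk3 hki, map_zero, zero_mul]
    rw [← ea, ev_split S a z i hi, h8, map_one, map_div₀, map_ofNat]
    ring

/-- the product of two unit vectors whose difference is a multiple of `z i ± z j` -/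
theorem prod_of_type {u1 u2 A zi zj s : ℂ} (n1 : ‖u1‖ = 1) (n2 : ‖u2‖ = 1) (ni : ‖zi‖ = 1)
    (nj : ‖zj‖ = 1) (d : u1 ≠ u2) (hA : (starRingEnd ℂ) A = A) (hs : s = 1 ∨ s = -1)
    (h : u1 - u2 = A * (zi + s * zj)) : u1 * u2 = -(s * (zi * zj)) := by
  have hz : ∀ u : ℂ, ‖u‖ = 1 → u ≠ 0 := by
    intro u hu h
    rw [h, norm_zero] at hu
    exact zero_ne_one hu
  have z1 := hz _ n1
  have z2 := hz _ n2
  have z3 := hz _ ni
  have z4 := hz _ nj
  have hsc : (starRingEnd ℂ) s = s := by rcases hs with rfl | rfl <;> simp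
  have h1 := congrArg (starRingEnd ℂ) h
  rw [map_sub, map_mul, map_add, map_mul, hA, hsc, conj_unit n1, conj_unit n2, conj_unit ni,
    conj_unit nj] at h1
  have hs2 : s ^ 2 = 1 := by rcases hs with rfl | rfl <;> norm_num
  have h2 : (u2 - u1) * (zi * zj) = A * (zj + s * zi) * (u1 * u2) := by
    field_simp at h1
    linear_combination h1
  have h3 : (u1 - u2) * (u1 * u2 + s * (zi * zj)) = 0 := by
    have h4 : A * (zj + s * zi) = s * (u1 - u2) := by
      rw [h]
      linear_combination -A * zj * hs2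
    rw [h4] at h2
    linear_combination (-s) * h2 + (-(u1 - u2) * (u1 * u2)) * hs2
  have h5 := (mul_eq_zero.1 h3).resolve_left (sub_ne_zero.2 d)
  exact eq_neg_of_add_eq_zero_left h5

/-- the numerical part -/
theorem numeric {A s ε : ℂ} (hA : A ≠ 0) (hs : s = 1 ∨ s = -1) (hε : ε = 1 ∨ ε = -1)
    (i j k l m n : ι) (hij : i = j → s = 1)
    (h : ∀ w : ι → ℂ, ε * (w i * w j) * ((w k * w l) ^ 2 + (w m * w n) ^ 2) +
      2 * s * (w i * w j) * (w k * w l) * (w m * w n) =
      A * (w i + s * w j) ^ 2 * (w k * w l) * (w m * w n)) : A = 1 := by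
  have h1 := h (fun _ => 1)
  simp only [mul_one, one_pow] at h1
  rcases hs with rfl | rfl
  · rcases hε with rfl | rfl
    · linear_combination (-1 / 4) * h1
    · exfalso
      apply hA
      linear_combination (-1 / 4) * h1
  · have hij' : i ≠ j := by
      intro h2
      have := hij h2
      norm_num at this
    rcases hε with rfl | rfl
    swap
    · exfalso
      norm_num at h1
    have hval : ∀ k l : ι,
        ((Function.update (fun _ => (1 : ℂ)) i 2 k * Function.update (fun _ => (1 : ℂ)) i 2 l = 1) ∧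
        (Function.update (fun _ => (1 : ℂ)) i 3 k * Function.update (fun _ => (1 : ℂ)) i 3 l = 1)) ∨
        ((Function.update (fun _ => (1 : ℂ)) i 2 k * Function.update (fun _ => (1 : ℂ)) i 2 l = 2) ∧
        (Function.update (fun _ => (1 : ℂ)) i 3 k * Function.update (fun _ => (1 : ℂ)) i 3 l = 3)) ∨
        ((Function.update (fun _ => (1 : ℂ)) i 2 k * Function.update (fun _ => (1 : ℂ)) i 2 l = 4) ∧
        (Function.update (fun _ => (1 : ℂ)) i 3 k * Function.update (fun _ => (1 : ℂ)) i 3 l = 9)) := by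
      intro k l
      by_cases hk : k = i
      · by_cases hl : l = i
        · right; right
          rw [hk, hl, Function.update_self, Function.update_self]
          norm_num
        · right; left
          rw [hk, Function.update_self, Function.update_self, Function.update_of_ne hl,
            Function.update_of_ne hl]
          norm_num
      · by_cases hl : l = i
        · right; left
          rw [hl, Function.update_self, Function.update_self, Function.update_of_ne hk,
            Function.update_of_ne hk]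
          norm_num
        · left
          rw [Function.update_of_ne hk, Function.update_of_ne hl,
            Function.update_of_ne hk, Function.update_of_ne hl]
          norm_num
    have h2 := h (Function.update (fun _ => (1 : ℂ)) i 2)
    have h3 := h (Function.update (fun _ => (1 : ℂ)) i 3)
    have g2 : Function.update (fun _ => (1 : ℂ)) i 2 i = 2 := Function.update_self _ _ _
    have g3 : Function.update (fun _ => (1 : ℂ)) i 3 i = 3 := Function.update_self _ _ _
    have k2 : Function.update (fun _ => (1 : ℂ)) i 2 j = 1 := Function.update_of_ne hij'.symm _ _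
    have k3 : Function.update (fun _ => (1 : ℂ)) i 3 j = 1 := Function.update_of_ne hij'.symm _ _
    rw [g2, k2] at h2
    rw [g3, k3] at h3
    rcases hval k l with ⟨p2, p3⟩ | ⟨p2, p3⟩ | ⟨p2, p3⟩ <;>
      rcases hval m n with ⟨q2, q3⟩ | ⟨q2, q3⟩ | ⟨q2, q3⟩ <;>
      rw [p2, q2] at h2 <;> rw [p3, q3] at h3
    · exact absurd (by linear_combination -h2) hA
    · linear_combination (-1 / 2) * h2
    · exfalso
      have : (30 : ℂ) = 0 := by linear_combination h3 - 9 * h2
      norm_num at this
    · linear_combination (-1 / 2) * h2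
    · exact absurd (by linear_combination (-1 / 4) * h2) hA
    · linear_combination (-1 / 8) * h2
    · exfalso
      have : (30 : ℂ) = 0 := by linear_combination h3 - 9 * h2
      norm_num at this
    · linear_combination (-1 / 8) * h2
    · exact absurd (by linear_combination (-1 / 16) * h2) hA

/-- a unit vector of a triple is `± z κ` -/
theorem unit_of_three {z : ι → ℂ} (hz : AlgebraicIndependent K z) (hn : ∀ i, ‖z i‖ = 1)
    {u1 u2 u3 : ℂ}
    (n1 : ‖u1‖ = 1) (n2 : ‖u2‖ = 1) (n3 : ‖u3‖ = 1) (d12 : u1 ≠ u2) (d23 : u2 ≠ u3) (d13 : u1 ≠ u3)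
    (m12 : u1 - u2 ∈ Submodule.span K (Set.range z))
    (m23 : u2 - u3 ∈ Submodule.span K (Set.range z)) : ∃ κ, u1 = z κ ∨ u1 = - z κ := by
  have m13 : u1 - u3 ∈ Submodule.span K (Set.range z) := by
    have := Submodule.add_mem _ m12 m23
    have h : u1 - u2 + (u2 - u3) = u1 - u3 := by ring
    rwa [h] at this
  have m32 : u3 - u2 ∈ Submodule.span K (Set.range z) := by
    have := Submodule.neg_mem _ m23
    rwa [neg_sub] at this
  have m31 : u3 - u1 ∈ Submodule.span K (Set.range z) := by
    have := Submodule.neg_mem _ m13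
    rwa [neg_sub] at this
  obtain ⟨i, j, α, s, hα, hs, hij, e12⟩ := typeOf hz hn n1 n2 n3 d12 d23 d13 m12 m23
  obtain ⟨k, l, β, t, hβ, ht, hkl, e23⟩ := typeOf hz hn n2 n3 n1 d23 d13.symm d12.symm m23 m31
  obtain ⟨m, n, γ, r, hγ, hr, hmn, e13⟩ := typeOf hz hn n1 n3 n2 d13 d23.symm d12 m13 m32
  have hcast : ∀ s : K, (s = 1 ∨ s = -1) → (algebraMap K ℂ s = 1 ∨ algebraMap K ℂ s = -1) := by
    intro s hs
    rcases hs with rfl | rfl
    · left; exact map_one _
    · right; rw [map_neg, map_one]
  have p12 := prod_of_type n1 n2 (hn i) (hn j) d12 (conj_alg α) (hcast s hs) e12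
  have p23 := prod_of_type n2 n3 (hn k) (hn l) d23 (conj_alg β) (hcast t ht) e23
  have p13 := prod_of_type n1 n3 (hn m) (hn n) d13 (conj_alg γ) (hcast r hr) e13
  set ε : K := -(s * r * t) with hε
  have hε' : ε = 1 ∨ ε = -1 := by
    rcases hs with rfl | rfl <;> rcases ht with rfl | rfl <;> rcases hr with rfl | rfl <;>
      simp [hε]
  have hz0 : ∀ u : ℂ, ‖u‖ = 1 → u ≠ 0 := by
    intro u hu h
    rw [h, norm_zero] at hu
    exact zero_ne_one hu
  have ht2 : algebraMap K ℂ t ^ 2 = 1 := by
    rcases hcast t ht with h | h <;> rw [h] <;> norm_num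
  have hr2 : algebraMap K ℂ r ^ 2 = 1 := by
    rcases hcast r hr with h | h <;> rw [h] <;> norm_num
  have hs2 : algebraMap K ℂ s ^ 2 = 1 := by
    rcases hcast s hs with h | h <;> rw [h] <;> norm_num
  have hεc : algebraMap K ℂ ε = -(algebraMap K ℂ s * algebraMap K ℂ r * algebraMap K ℂ t) := by
    rw [hε, map_neg, map_mul, map_mul]
  -- squares
  have sq1 : u1 ^ 2 * (z k * z l) = algebraMap K ℂ ε * (z i * z j) * (z m * z n) := by
    have h1 : u1 ^ 2 * (u2 * u3) = (u1 * u2) * (u1 * u3) := by ring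
    rw [p12, p13, p23] at h1
    rw [hεc]
    linear_combination (-algebraMap K ℂ t) * h1 + (-u1 ^ 2 * (z k * z l)) * ht2
  have sq2 : u2 ^ 2 * (z m * z n) = algebraMap K ℂ ε * (z i * z j) * (z k * z l) := by
    have h1 : u2 ^ 2 * (u1 * u3) = (u1 * u2) * (u2 * u3) := by ring
    rw [p12, p13, p23] at h1
    rw [hεc]
    linear_combination (-algebraMap K ℂ r) * h1 + (-u2 ^ 2 * (z m * z n)) * hr2
  have hF0 : algebraMap K ℂ ε * (z i * z j) * ((z k * z l) ^ 2 + (z m * z n) ^ 2) +
      2 * algebraMap K ℂ s * (z i * z j) * (z k * z l) * (z m * z n) =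
      algebraMap K ℂ α ^ 2 * (z i + algebraMap K ℂ s * z j) ^ 2 * (z k * z l) * (z m * z n) := by
    have h1 : algebraMap K ℂ α ^ 2 * (z i + algebraMap K ℂ s * z j) ^ 2 =
        u1 ^ 2 + u2 ^ 2 - 2 * (u1 * u2) := by
      rw [← mul_pow, ← e12]
      ring
    rw [h1, p12]
    linear_combination (-(z m * z n)) * sq1 - (z k * z l) * sq2
  set F : MvPolynomial ι K := C ε * (X i * X j) * ((X k * X l) ^ 2 + (X m * X n) ^ 2) +
      2 * C s * (X i * X j) * (X k * X l) * (X m * X n) -
      C α ^ 2 * (X i + C s * X j) ^ 2 * (X k * X l) * (X m * X n) with hF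
  have hev : ∀ w : ι → ℂ, aeval w F =
      algebraMap K ℂ ε * (w i * w j) * ((w k * w l) ^ 2 + (w m * w n) ^ 2) +
      2 * algebraMap K ℂ s * (w i * w j) * (w k * w l) * (w m * w n) -
      algebraMap K ℂ α ^ 2 * (w i + algebraMap K ℂ s * w j) ^ 2 * (w k * w l) * (w m * w n) := by
    intro w
    rw [hF]
    simp only [map_add, map_sub, map_mul, map_pow, aeval_X, aeval_C, map_ofNat]
  have hall : ∀ w : ι → ℂ, algebraMap K ℂ ε * (w i * w j) * ((w k * w l) ^ 2 + (w m * w n) ^ 2) +
      2 * algebraMap K ℂ s * (w i * w j) * (w k * w l) * (w m * w n) =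
      algebraMap K ℂ α ^ 2 * (w i + algebraMap K ℂ s * w j) ^ 2 * (w k * w l) * (w m * w n) := by
    intro w
    have h1 := subst hz F (by rw [hev, hF0, sub_self]) w
    rw [hev] at h1
    exact sub_eq_zero.1 h1
  have hα0 : algebraMap K ℂ α ≠ 0 := fun h => hα (inj (by rw [h, map_zero]))
  have hα2 : algebraMap K ℂ α ^ 2 = 1 :=
    numeric (pow_ne_zero 2 hα0) (hcast s hs) (hcast ε hε') i j k l m n
      (fun h => by rw [hij h, map_one]) hall
  have hroot : (u1 - algebraMap K ℂ α * z i) * (u1 - algebraMap K ℂ α * algebraMap K ℂ s * z j) = 0 := by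
    linear_combination u1 * e12 + p12 + (algebraMap K ℂ s * z i * z j) * hα2
  have hαv : algebraMap K ℂ α = 1 ∨ algebraMap K ℂ α = -1 := by
    have h4 : (algebraMap K ℂ α - 1) * (algebraMap K ℂ α + 1) = 0 := by linear_combination hα2
    rcases mul_eq_zero.1 h4 with h5 | h5
    · exact Or.inl (sub_eq_zero.1 h5)
    · exact Or.inr (eq_neg_of_add_eq_zero_left h5)
  rcases mul_eq_zero.1 hroot with h5 | h5
  · refine ⟨i, ?_⟩
    have h6 := sub_eq_zero.1 h5
    rcases hαv with h7 | h7
    · left; rw [h6, h7, one_mul]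
    · right; rw [h6, h7]; ring
  · refine ⟨j, ?_⟩
    have h6 := sub_eq_zero.1 h5
    rcases hαv with h7 | h7 <;> rcases hcast s hs with h8 | h8
    · left; rw [h6, h7, h8]; ring
    · right; rw [h6, h7, h8]; ring
    · right; rw [h6, h7, h8]; ring
    · left; rw [h6, h7, h8]; ring

end ev

end UCR
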