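import Mathlib
import Pool.Agent.UCR.Rat

/-!
# UCR: the lower bound
-/

set_option autoImplicit false

namespace UCR

open Finset

theorem two_choose (k : ℕ) : 2 * (k + 2).choose 2 = (k + 2) * (k + 1) := by
  induction k with
  | zero => rfl
  | succ k ih =>
    have h : (k + 1 + 2).choose 2 = (k + 2).choose 1 + (k + 2).choose 2 := Nat.choose_succ_succ' _ _
    rw [h, Nat.choose_one_right, mul_add, ih]
    ring

theorem six_choose (k : ℕ) : 6 * (k + 3).choose 3 = (k + 3) * (k + 2) * (k + 1) := by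
  induction k with
  | zero => rfl
  | succ k ih =>
    have h : (k + 1 + 3).choose 3 = (k + 3).choose 2 + (k + 3).choose 3 := Nat.choose_succ_succ' _ _
    have h2 := two_choose (k + 1)
    have h3 : k + 1 + 2 = k + 3 := by ring
    rw [h3] at h2
    rw [h, mul_add, ih]
    have : 6 * (k + 3).choose 2 = 3 * (2 * (k + 3).choose 2) := by ring
    rw [this, h2]
    ring

theorem cube_le (m : ℕ) (hm : 3 ≤ m) : m ^ 3 ≤ 27 * m.choose 3 := by
  obtain ⟨k, rfl⟩ : ∃ k, m = k + 3 := ⟨m - 3, by omega⟩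
  have h := six_choose k
  have h2 : 2 * (k + 3) ^ 3 ≤ 9 * (6 * (k + 3).choose 3) := by
    rw [h]
    have : 9 * ((k + 3) * (k + 2) * (k + 1)) = 2 * (k + 3) ^ 3 +
      (k + 3) * (7 * k ^ 2 + 15 * k) := by ring
    omega
  omega

theorem exists_choose (n : ℕ) : ∃ m : ℕ, 1 ≤ m ∧ m.choose 2 ≤ n ∧ n < (m + 1).choose 2 := by
  induction n with
  | zero => exact ⟨1, le_refl _, by decide, by decide⟩
  | succ n ih =>
    obtain ⟨m, hm, h1, h2⟩ := ih
    by_cases h3 : n + 1 < (m + 1).choose 2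
    · exact ⟨m, hm, by omega, h3⟩
    · refine ⟨m + 1, by omega, by omega, ?_⟩
      have h4 : (m + 1 + 1).choose 2 = (m + 1).choose 1 + (m + 1).choose 2 :=
        Nat.choose_succ_succ' _ _
      rw [h4, Nat.choose_one_right]
      omega

/-- subset sums of a linearly independent family are distinct -/
theorem sums_inj {m : ℕ} {v : Fin m → ℂ} (hv : LinearIndependent ℚ v) (s t : Finset (Fin m))
    (h : ∑ i ∈ s, v i = ∑ i ∈ t, v i) : s = t := by
  classical
  rw [Fintype.linearIndependent_iff] at hv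
  have h1 := hv (fun i => (if i ∈ s then 1 else 0) - (if i ∈ t then 1 else 0)) (by
    simp only [sub_smul, ite_smul, one_smul, zero_smul, sum_sub_distrib, sum_ite_mem, univ_inter]
    rw [h, sub_self])
  ext i
  have h2 := h1 i
  by_cases hs : i ∈ s <;> by_cases ht : i ∈ t <;> simp_all

theorem centres_mono (D : Set ℂ) {P P' : Finset ℂ} (h : P ⊆ P') : centres D P ⊆ centres D P' := by
  intro q hq
  rw [centres, Set.mem_ofPred_eq] at hq ⊢
  refine hq.trans (Set.ncard_le_ncard ?_ ?_)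
  · rintro p ⟨hp, hpq⟩
    exact ⟨h hp, hpq⟩
  · exact P'.finite_toSet.subset fun p hp => hp.1

/-- the configuration of all sums of two vectors -/
theorem lower {D : Set ℂ} {V : Set ℂ} (hV : V.Infinite)
    (hv : ∀ m : ℕ, ∃ v : Fin m → ℂ, LinearIndependent ℚ v ∧ (∀ i, -v i ∈ D) ∧
      ∀ i j, i ≠ j → v i + v j ∈ V)
    (hfin : ∀ P : Finset ℂ, (P : Set ℂ) ⊆ V → (centres D P).Finite) (n : ℕ) (hn : 3 ≤ n) :
    ∃ P : Finset ℂ, (P : Set ℂ) ⊆ V ∧ P.card = n ∧
      (n : ℝ) ^ (3 / 2 : ℝ) / 27 ≤ ((centres D P).ncard : ℝ) := by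
  classical
  obtain ⟨m, hm1, hm2, hm3⟩ := exists_choose n
  have hm : 3 ≤ m := by
    by_contra hcon
    have h1 : (m + 1).choose 2 ≤ (3 : ℕ).choose 2 := Nat.choose_le_choose 2 (by omega)
    have h2 : (3 : ℕ).choose 2 = 3 := by decide
    omega
  obtain ⟨v, hlin, hvD, hvV⟩ := hv m
  set σ : Finset (Fin m) → ℂ := fun s => ∑ i ∈ s, v i with hσ
  have hinj : Function.Injective σ := fun s t h => sums_inj hlin s t h
  set P0 : Finset ℂ := (powersetCard 2 univ).image σ with hP0
  set Q0 : Finset ℂ := (powersetCard 3 univ).image σ with hQ0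
  have hP0c : P0.card = m.choose 2 := by
    rw [hP0, card_image_of_injective _ hinj, card_powersetCard, card_univ, Fintype.card_fin]
  have hQ0c : Q0.card = m.choose 3 := by
    rw [hQ0, card_image_of_injective _ hinj, card_powersetCard, card_univ, Fintype.card_fin]
  have hP0V : (P0 : Set ℂ) ⊆ V := by
    intro p hp
    rw [hP0, mem_coe, mem_image] at hp
    obtain ⟨s, hs, rfl⟩ := hp
    rw [mem_powersetCard] at hs
    obtain ⟨i, j, hij, rfl⟩ := card_eq_two.1 hs.2
    rw [hσ]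
    simp only
    rw [sum_pair hij]
    exact hvV i j hij
  -- padding
  obtain ⟨P, hP0P, hPV, hPc⟩ : ∃ P : Finset ℂ, P0 ⊆ P ∧ (P : Set ℂ) ⊆ V ∧ P.card = n := by
    have h1 : (V \ (P0 : Set ℂ)).Infinite := hV.sdiff P0.finite_toSet
    obtain ⟨R, hR, hRc⟩ := Set.Infinite.exists_subset_card_eq h1 (n - P0.card)
    refine ⟨P0 ∪ R, subset_union_left, ?_, ?_⟩
    · rw [coe_union, Set.union_subset_iff]
      exact ⟨hP0V, fun x hx => (hR hx).1⟩
    · rw [card_union_of_disjoint, hRc, hP0c]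
      · omega
      · rw [Finset.disjoint_left]
        intro x hx hxR
        exact (hR (mem_coe.2 hxR)).2 (mem_coe.2 hx)
  refine ⟨P, hPV, hPc, ?_⟩
  have hQsub : (Q0 : Set ℂ) ⊆ centres D P0 := by
    intro q hq
    rw [hQ0, mem_coe, mem_image] at hq
    obtain ⟨t, ht, rfl⟩ := hq
    rw [mem_powersetCard] at ht
    rw [centres, Set.mem_ofPred_eq]
    have h1 : ((t.image (fun j => σ (t.erase j)) : Finset ℂ) : Set ℂ) ⊆
        {p : ℂ | p ∈ P0 ∧ p - σ t ∈ D} := by
      intro p hp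
      rw [mem_coe, mem_image] at hp
      obtain ⟨j, hj, rfl⟩ := hp
      refine ⟨?_, ?_⟩
      · rw [hP0, mem_image]
        refine ⟨t.erase j, ?_, rfl⟩
        rw [mem_powersetCard]
        exact ⟨subset_univ _, by rw [card_erase_of_mem hj, ht.2]⟩
      · have h2 : σ (t.erase j) - σ t = - v j := by
          rw [hσ]
          simp only
          rw [← add_sum_erase t v hj]
          ring
        rw [h2]
        exact hvD j
    have h2 := Set.ncard_le_ncard h1 (P0.finite_toSet.subset fun p hp => hp.1)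
    rw [Set.ncard_coe_finset, card_image_of_injOn, ht.2] at h2
    · exact h2
    · intro i hi j hj hij
      have h3 := hinj hij
      by_contra hne
      have h4 : i ∈ t.erase j := mem_erase.2 ⟨hne, hi⟩
      rw [← h3] at h4
      exact (notMem_erase i t) h4
  have h1 : Q0.card ≤ (centres D P).ncard := by
    rw [← Set.ncard_coe_finset Q0]
    exact Set.ncard_le_ncard (hQsub.trans (centres_mono D hP0P)) (hfin P hPV)
  rw [hQ0c] at h1
  have h2 := cube_le m hm
  have h3 : n ≤ m ^ 2 := by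
    obtain ⟨k, rfl⟩ : ∃ k, m = k + 1 := ⟨m - 1, by omega⟩
    have h4 := two_choose k
    have h5 : k + 1 + 1 = k + 2 := rfl
    rw [h5] at hm3
    nlinarith
  have h4 : (n : ℝ) ^ (3 / 2 : ℝ) ≤ (m : ℝ) ^ 3 := by
    have h5 : (n : ℝ) ≤ (m : ℝ) ^ 2 := by exact_mod_cast h3
    calc (n : ℝ) ^ (3 / 2 : ℝ) ≤ ((m : ℝ) ^ 2) ^ (3 / 2 : ℝ) :=
          Real.rpow_le_rpow (by positivity) h5 (by norm_num)
      _ = (m : ℝ) ^ 3 := by
          rw [← Real.rpow_natCast, ← Real.rpow_mul (by positivity)]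
          norm_num
  have h5 : (m : ℝ) ^ 3 ≤ 27 * ((centres D P).ncard : ℝ) := by
    have h6 : m ^ 3 ≤ 27 * (centres D P).ncard := h2.trans (Nat.mul_le_mul_left _ h1)
    exact_mod_cast h6
  linarith

/-- roots of unity which are linearly independent over the rationals -/
theorem exists_roots (m : ℕ) (b : ℂ) (hb : b ≠ 0) : ∃ v : Fin m → ℂ, LinearIndependent ℚ v ∧
    ∀ i, ∃ N : ℕ, 0 < N ∧ (v i) ^ N = b ^ N := by
  obtain ⟨p, hpm, hp⟩ := Nat.exists_infinite_primes (m + 1)
  have hζ := Complex.isPrimitiveRoot_exp p hp.ne_zero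
  set ζ := Complex.exp (2 * Real.pi * Complex.I / p) with hζdef
  have h1 : LinearIndependent ℚ (fun i : Fin (minpoly ℚ ζ).natDegree => ζ ^ (i : ℕ)) :=
    linearIndependent_pow ζ
  have h2 : (minpoly ℚ ζ).natDegree = p - 1 := by
    rw [← Polynomial.cyclotomic_eq_minpoly_rat hζ hp.pos, Polynomial.natDegree_cyclotomic,
      Nat.totient_prime hp]
  have h3 : m ≤ (minpoly ℚ ζ).natDegree := by omega
  have h4 : LinearIndependent ℚ (fun i : Fin m => ζ ^ (i : ℕ)) := by
    have := h1.comp (Fin.castLE h3) (Fin.castLE_injective h3)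
    exact this
  refine ⟨fun i => b * ζ ^ (i : ℕ), ?_, ?_⟩
  · rw [Fintype.linearIndependent_iff] at h4 ⊢
    intro g hg
    apply h4
    have h5 : b * ∑ i, g i • ζ ^ (i : ℕ) = 0 := by
      rw [mul_sum, ← hg]
      refine sum_congr rfl fun i _ => ?_
      rw [mul_smul_comm]
    exact (mul_eq_zero.1 h5).resolve_left hb
  · intro i
    refine ⟨p, hp.pos, ?_⟩
    rw [mul_pow, ← pow_mul, mul_comm (i : ℕ) p, pow_mul, hζ.pow_eq_one, one_pow, mul_one]

end UCR
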