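import Mathlib
import Pool.Agent.UCR.DefsG
import Pool.Agent.UCR.Gen
import Pool.Agent.UCR.Lower

/-!
# UCR: the bounds for generic lattices
-/

set_option autoImplicit false

namespace UCR

open Finset

section sys

variable {K : Type*} [Field K] [Algebra K ℝ] {ι : Type*}

theorem pm_sys (z : ι → ℂ) (h0 : ∀ i, z i ≠ 0) (hlin : LinearIndependent K z) :
    DirSys {u : ℂ | ∃ i, u = z i ∨ u = - z i} (fun u v => u = v ∨ u = -v) 2 where
  neg_mem := by
    rintro u ⟨i, rfl | rfl⟩
    · exact ⟨i, Or.inr rfl⟩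
    · exact ⟨i, Or.inl (neg_neg _)⟩
  zero_not := by
    rintro ⟨i, h | h⟩
    · exact h0 i h.symm
    · exact h0 i (neg_eq_zero.1 h.symm)
  refl := fun u _ => Or.inl rfl
  symm := by
    rintro u v (rfl | rfl)
    · exact Or.inl rfl
    · exact Or.inr (neg_neg _).symm
  negl := by
    rintro u v (rfl | rfl)
    · exact Or.inr rfl
    · exact Or.inl (neg_neg _)
  fin := by
    classical
    intro u _
    refine ⟨{u, -u}, card_le_two, ?_⟩
    rintro v _ (rfl | rfl)
    · simp
    · simp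
  min := by
    classical
    intro ι' _ I f hcard hfD hsum hmin i hi j hj
    have hex : ∀ k : ι', ∃ (κ : ι) (c : K), k ∈ I → (c = 1 ∨ c = -1) ∧ f k = c • z κ := by
      intro k
      by_cases hk : k ∈ I
      · obtain ⟨κ, h | h⟩ := hfD k hk
        · exact ⟨κ, 1, fun _ => ⟨Or.inl rfl, by rw [one_smul]; exact h⟩⟩
        · exact ⟨κ, -1, fun _ => ⟨Or.inr rfl, by rw [neg_smul, one_smul]; exact h⟩⟩
      · obtain ⟨κ, _⟩ := hfD i hi
        exact ⟨κ, 1, fun h => absurd h hk⟩
    choose κ c hc using hex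
    set g : ι → K := fun x => ∑ k ∈ I.filter (fun k => κ k = x), c k with hg
    have hlin' := linearIndependent_iff'.1 hlin (I.image κ) g (by
      have h1 : ∀ x ∈ I.image κ, g x • z x = ∑ k ∈ I.filter (fun k => κ k = x), f k := by
        intro x _
        rw [hg, sum_smul]
        refine sum_congr rfl fun k hk => ?_
        obtain ⟨hkI, hkx⟩ := mem_filter.1 hk
        rw [(hc k hkI).2, hkx]
      rw [sum_congr rfl h1, sum_fiberwise_of_maps_to (fun k hk => mem_image_of_mem κ hk), hsum])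
    have hgi := hlin' (κ i) (mem_image_of_mem κ hi)
    set J := I.filter (fun k => κ k = κ i) with hJ
    have hJsum : ∑ k ∈ J, f k = 0 := by
      have h1 : ∑ k ∈ J, f k = g (κ i) • z (κ i) := by
        rw [hg, sum_smul]
        refine sum_congr rfl fun k hk => ?_
        obtain ⟨hkI, hkx⟩ := mem_filter.1 hk
        rw [(hc k hkI).2, hkx]
      rw [h1, hgi, zero_smul]
    have hJI : J = I := by
      by_contra hne
      have hss : J ⊂ I := ⟨filter_subset _ _, fun h3 =>
        hne (Subset.antisymm (filter_subset _ _) h3)⟩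
      exact hmin J hss ⟨i, mem_filter.2 ⟨hi, rfl⟩⟩ hJsum
    have hκ : κ j = κ i := by
      rw [← hJI] at hj
      exact (mem_filter.1 hj).2
    obtain ⟨ci, fi⟩ := hc i hi
    obtain ⟨cj, fj⟩ := hc j hj
    rw [hκ] at fj
    rcases ci with ci | ci <;> rcases cj with cj | cj <;> rw [ci] at fi <;> rw [cj] at fj <;>
      rw [fi, fj] <;> simp

theorem cosetCentres_sub {z : ι → ℂ} (hz : AlgebraicIndependent K z) (hn : ∀ i, ‖z i‖ = 1)
    (P : Finset ℂ) :
    cosetCentres (Submodule.span K (Set.range z) : Set ℂ) P ⊆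
      centres {u : ℂ | ∃ i, u = z i ∨ u = - z i} P := by
  classical
  rintro q ⟨p₁, h1, p₂, h2, p₃, h3, d12, d23, d13, n1, n2, n3, m12, m23⟩
  have e12 : p₁ - q ≠ p₂ - q := fun h => d12 (sub_left_inj.1 h)
  have e23 : p₂ - q ≠ p₃ - q := fun h => d23 (sub_left_inj.1 h)
  have e13 : p₁ - q ≠ p₃ - q := fun h => d13 (sub_left_inj.1 h)
  have s12 : (p₁ - q) - (p₂ - q) ∈ Submodule.span K (Set.range z) := by
    have : (p₁ - q) - (p₂ - q) = p₁ - p₂ := by ring
    rw [this]; exact m12
  have s23 : (p₂ - q) - (p₃ - q) ∈ Submodule.span K (Set.range z) := by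
    have : (p₂ - q) - (p₃ - q) = p₂ - p₃ := by ring
    rw [this]; exact m23
  have s31 : (p₃ - q) - (p₁ - q) ∈ Submodule.span K (Set.range z) := by
    have h := Submodule.neg_mem _ (Submodule.add_mem _ s12 s23)
    have : -((p₁ - q) - (p₂ - q) + ((p₂ - q) - (p₃ - q))) = (p₃ - q) - (p₁ - q) := by ring
    rwa [this] at h
  have g1 := unit_of_three hz hn n1 n2 n3 e12 e23 e13 s12 s23
  have g2 := unit_of_three hz hn n2 n3 n1 e23 e13.symm e12.symm s23 s31
  have g3 := unit_of_three hz hn n3 n1 n2 e13.symm e12 e23.symm s31 s12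
  rw [centres, Set.mem_ofPred_eq]
  have hsub : ((({p₁, p₂, p₃} : Finset ℂ)) : Set ℂ) ⊆
      {p : ℂ | p ∈ P ∧ p - q ∈ {u : ℂ | ∃ i, u = z i ∨ u = - z i}} := by
    intro p hp
    rw [mem_coe, mem_insert, mem_insert, mem_singleton] at hp
    rcases hp with rfl | rfl | rfl
    · exact ⟨h1, g1⟩
    · exact ⟨h2, g2⟩
    · exact ⟨h3, g3⟩
  have h4 := Set.ncard_le_ncard hsub (P.finite_toSet.subset fun p hp => hp.1)
  rw [Set.ncard_coe_finset, card_eq_three.2 ⟨p₁, p₂, p₃, d12, d13, d23, rfl⟩] at h4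
  exact h4

/-- the upper bound -/
theorem coset_le {z : ι → ℂ} (hz : AlgebraicIndependent K z) (hn : ∀ i, ‖z i‖ = 1) (P : Finset ℂ) :
    (cosetCentres (Submodule.span K (Set.range z) : Set ℂ) P).Finite ∧
      ((cosetCentres (Submodule.span K (Set.range z) : Set ℂ) P).ncard : ℝ) ≤
        2304 * (P.card : ℝ) ^ (3 / 2 : ℝ) := by
  classical
  have hz0 : ∀ i, z i ≠ 0 := by
    intro i h
    have := hn i
    rw [h, norm_zero] at this
    exact zero_ne_one this
  have h1 := centres_le (pm_sys (K := K) z hz0 hz.linearIndependent) P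
  have h2 := cosetCentres_sub hz hn P
  refine ⟨h1.1.subset h2, ?_⟩
  have h3 : ((cosetCentres (Submodule.span K (Set.range z) : Set ℂ) P).ncard : ℝ) ≤
      ((centres {u : ℂ | ∃ i, u = z i ∨ u = - z i} P).ncard : ℝ) := by
    exact_mod_cast Set.ncard_le_ncard h2 h1.1
  refine h3.trans (h1.2.trans (le_of_eq ?_))
  push_cast
  norm_num

/-- the lower bound -/
theorem coset_ge {z : ℕ → ℂ} (hz : AlgebraicIndependent K z) (hn : ∀ i, ‖z i‖ = 1) (n : ℕ)
    (h3n : 3 ≤ n) : ∃ P : Finset ℂ, (P : Set ℂ) ⊆ (Submodule.span K (Set.range z) : Set ℂ) ∧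
      P.card = n ∧ (n : ℝ) ^ (3 / 2 : ℝ) / 27 ≤
        ((cosetCentres (Submodule.span K (Set.range z) : Set ℂ) P).ncard : ℝ) := by
  classical
  have hchar : CharZero K := (algebraMap K ℝ).charZero
  have hz0 : ∀ i, z i ≠ 0 := by
    intro i h
    have := hn i
    rw [h, norm_zero] at this
    exact zero_ne_one this
  have hmem : ∀ i, z i ∈ Submodule.span K (Set.range z) := fun i =>
    Submodule.subset_span ⟨i, rfl⟩
  have hinf : (Submodule.span K (Set.range z) : Set ℂ).Infinite := by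
    refine Set.Infinite.mono ?_ (Set.infinite_range_of_injective hz.linearIndependent.injective)
    rintro _ ⟨i, rfl⟩
    exact hmem i
  have hsys := pm_sys (K := K) z hz0 hz.linearIndependent
  have hfin : ∀ P : Finset ℂ, (centres {u : ℂ | ∃ i, u = z i ∨ u = - z i} P).Finite := fun P =>
    (centres_le hsys P).1
  obtain ⟨P, hP1, hP2, hP3⟩ := lower (D := {u : ℂ | ∃ i, u = z i ∨ u = - z i})
    (V := (Submodule.span K (Set.range z) : Set ℂ)) hinf (by
      intro m
      refine ⟨fun i => z i, ?_, fun i => ⟨i, Or.inr rfl⟩, fun i j _ =>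
        Submodule.add_mem _ (hmem i) (hmem j)⟩
      have h1 : LinearIndependent K (fun i : Fin m => z i) :=
        hz.linearIndependent.comp (fun i : Fin m => (i : ℕ)) Fin.val_injective
      rw [Fintype.linearIndependent_iff] at h1 ⊢
      intro g hg i
      have h2 := h1 (fun i => (g i : K)) (by
        rw [← hg]
        refine sum_congr rfl fun i _ => ?_
        rw [Algebra.smul_def, Algebra.smul_def, map_ratCast]
        simp) i
      exact_mod_cast h2) (fun P _ => hfin P) n h3n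
  refine ⟨P, hP1, hP2, hP3.trans ?_⟩
  have hsub : centres {u : ℂ | ∃ i, u = z i ∨ u = - z i} P ⊆
      cosetCentres (Submodule.span K (Set.range z) : Set ℂ) P := by
    intro q hq
    rw [centres, Set.mem_ofPred_eq] at hq
    obtain ⟨T, hT, hTc⟩ := Set.exists_subset_card_eq hq
    obtain ⟨p₁, p₂, p₃, d12, d13, d23, hTe⟩ := Set.ncard_eq_three.1 hTc
    have hn' : ∀ p ∈ T, p ∈ P ∧ ‖p - q‖ = 1 := by
      intro p hp
      obtain ⟨hpP, i, h | h⟩ := hT hp
      · exact ⟨hpP, by rw [h, hn]⟩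
      · exact ⟨hpP, by rw [h, norm_neg, hn]⟩
    have t1 : p₁ ∈ T := by rw [hTe]; simp
    have t2 : p₂ ∈ T := by rw [hTe]; simp
    have t3 : p₃ ∈ T := by rw [hTe]; simp
    exact ⟨p₁, (hn' _ t1).1, p₂, (hn' _ t2).1, p₃, (hn' _ t3).1, d12, d23, d13, (hn' _ t1).2,
      (hn' _ t2).2, (hn' _ t3).2,
      Submodule.sub_mem _ (hP1 (hn' _ t1).1) (hP1 (hn' _ t2).1),
      Submodule.sub_mem _ (hP1 (hn' _ t2).1) (hP1 (hn' _ t3).1)⟩
  exact_mod_cast Set.ncard_le_ncard hsub (coset_le hz hn P).1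

end sys

end UCR
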