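import Mathlib
import Pool.Agent.UCR.Defs

/-!
# UCR: definitions for short relations between radii
-/

set_option autoImplicit false

namespace UCR

/-- the centres of the unit circles which pass through at least three points of `P` -/
def unitCentres (P : Finset ℂ) : Set ℂ := centres {u : ℂ | ‖u‖ = 1} P

/-- the radius vectors `± (p - q)`, where `q` is the centre of a unit circle through at least three points
of `P` and `p ∈ P` lies on that circle -/
def radii (P : Finset ℂ) : Set ℂ :=
  {u : ℂ | ∃ q ∈ unitCentres P, ∃ p ∈ P, ‖p - q‖ = 1 ∧ (u = p - q ∨ u = q - p)}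

/-- `u` and `v` occur in a common vanishing sum of at most eight terms from `R` none of whose proper nonempty
subsums vanishes -/
def Linked (R : Set ℂ) (u v : ℂ) : Prop :=
  ∃ (k : ℕ) (f : Fin k → ℂ), k ≤ 8 ∧ (∀ i, f i ∈ R) ∧ ∑ i, f i = 0 ∧
    (∀ J : Finset (Fin k), J.Nonempty → J ≠ Finset.univ → ∑ i ∈ J, f i ≠ 0) ∧
    (∃ i, f i = u) ∧ ∃ j, f j = v

/-- the radii `u` such that more than `b` radii `v` have the property that `u` is linked to `v` or to `-v` -/
def busyRadii (P : Finset ℂ) (b : ℕ) : Set ℂ :=
  {u ∈ radii P | b < {v ∈ radii P | Linked (radii P) u v ∨ Linked (radii P) u (-v)}.ncard}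

end UCR
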