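import Mathlib
import Pool.Agent.UCR.DefsS
import Pool.Agent.UCR.Rat

/-!
# UCR: short relations between radii
-/

set_option autoImplicit false

namespace UCR

open Finset

theorem unitCentres_finite (P : Finset ℂ) : (unitCentres P).Finite := by
  classical
  -- every centre is one of the at most two points at distance one from two distinct points of `P`
  have key : ∀ p1 p2 : ℂ, p1 ≠ p2 → {q : ℂ | ‖p1 - q‖ = 1 ∧ ‖p2 - q‖ = 1}.Finite := by
    intro p1 p2 hne
    set s : ℂ := p1 - p2 with hs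
    have hs0 : s ≠ 0 := sub_ne_zero.2 hne
    have hcs : (starRingEnd ℂ) s ≠ 0 := (map_ne_zero _).2 hs0
    -- `w = p1 - q` is a root of a quadratic polynomial
    set F : Polynomial ℂ := Polynomial.C ((starRingEnd ℂ) s) * Polynomial.X ^ 2 -
      Polynomial.C (s * (starRingEnd ℂ) s) * Polynomial.X + Polynomial.C s with hF
    have hF0 : F ≠ 0 := by
      intro h
      have h1 : F.coeff 2 = (starRingEnd ℂ) s := by
        rw [hF]
        simp [Polynomial.coeff_X, Polynomial.coeff_C]
      rw [h, Polynomial.coeff_zero] at h1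
      exact hcs h1.symm
    refine ((F.roots.toFinset.finite_toSet).image (fun w => p1 - w)).subset ?_
    rintro q ⟨h1, h2⟩
    refine ⟨p1 - q, ?_, by ring⟩
    rw [mem_coe, Multiset.mem_toFinset, Polynomial.mem_roots hF0, Polynomial.IsRoot.def]
    have e1 : (p1 - q) * (starRingEnd ℂ) (p1 - q) = 1 := by
      rw [Complex.mul_conj, Complex.normSq_eq_norm_sq, h1]
      norm_num
    have e2 : (p2 - q) * (starRingEnd ℂ) (p2 - q) = 1 := by
      rw [Complex.mul_conj, Complex.normSq_eq_norm_sq, h2]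
      norm_num
    set w := p1 - q with hw
    have e3 : p2 - q = w - s := by rw [hw, hs]; ring
    rw [e3, map_sub] at e2
    rw [hF]
    simp only [Polynomial.eval_add, Polynomial.eval_sub, Polynomial.eval_mul, Polynomial.eval_C,
      Polynomial.eval_pow, Polynomial.eval_X]
    linear_combination (w - s) * e1 - w * e2
  refine (Set.Finite.biUnion P.finite_toSet fun p1 _ => Set.Finite.biUnion
    (P.finite_toSet.subset (Set.sep_subset (P : Set ℂ) (fun p2 => p1 ≠ p2))) fun p2 hp2 =>
      key p1 p2 hp2.2).subset ?_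
  intro q hq
  rw [unitCentres, centres, Set.mem_ofPred_eq] at hq
  have hfin : ({p : ℂ | p ∈ P ∧ p - q ∈ {u : ℂ | ‖u‖ = 1}}).Finite :=
    P.finite_toSet.subset fun p hp => hp.1
  obtain ⟨p1, hp1, p2, hp2, hne⟩ := (Set.one_lt_ncard hfin).1 (by omega)
  simp only [Set.mem_iUnion]
  exact ⟨p1, hp1.1, p2, ⟨hp2.1, hne⟩, hp1.2, hp2.2⟩

theorem radii_finite (P : Finset ℂ) : (radii P).Finite := by
  have h1 : ((unitCentres P) ×ˢ (P : Set ℂ)).Finite := (unitCentres_finite P).prod P.finite_toSet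
  refine ((h1.image (fun z => z.2 - z.1)).union (h1.image (fun z => z.1 - z.2))).subset ?_
  rintro u ⟨q, hq, p, hp, _, h | h⟩
  · exact Or.inl ⟨(q, p), ⟨hq, hp⟩, h.symm⟩
  · exact Or.inr ⟨(q, p), ⟨hq, hp⟩, h.symm⟩

theorem radii_neg (P : Finset ℂ) {u : ℂ} (hu : u ∈ radii P) : -u ∈ radii P := by
  obtain ⟨q, hq, p, hp, hn, h⟩ := hu
  refine ⟨q, hq, p, hp, hn, ?_⟩
  rcases h with rfl | rfl
  · right; ring
  · left; ring

theorem radii_norm (P : Finset ℂ) {u : ℂ} (hu : u ∈ radii P) : ‖u‖ = 1 := by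
  obtain ⟨q, hq, p, hp, hn, h⟩ := hu
  rcases h with rfl | rfl
  · exact hn
  · rw [norm_sub_rev]; exact hn

theorem linked_symm {R : Set ℂ} {u v : ℂ} (h : Linked R u v) : Linked R v u := by
  obtain ⟨k, f, hk, hR, h0, hmin, hi, hj⟩ := h
  exact ⟨k, f, hk, hR, h0, hmin, hj, hi⟩

theorem linked_neg {R : Set ℂ} (hR : ∀ u ∈ R, -u ∈ R) {u v : ℂ} (h : Linked R u v) :
    Linked R (-u) (-v) := by
  obtain ⟨k, f, hk, hf, h0, hmin, ⟨i, hi⟩, ⟨j, hj⟩⟩ := h
  refine ⟨k, fun i => -f i, hk, fun i => hR _ (hf i), ?_, ?_, ⟨i, by simp [hi]⟩, ⟨j, by simp [hj]⟩⟩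
  · rw [sum_neg_distrib, h0, neg_zero]
  · intro J hJ hJu h
    rw [sum_neg_distrib, neg_eq_zero] at h
    exact hmin J hJ hJu h

/-- the symmetric relation -/
def rel8 (R : Set ℂ) (u v : ℂ) : Prop := Linked R u v ∨ Linked R u (-v)

theorem rel8_symm {R : Set ℂ} (hR : ∀ u ∈ R, -u ∈ R) {u v : ℂ} (h : rel8 R u v) : rel8 R v u := by
  rcases h with h | h
  · exact Or.inl (linked_symm h)
  · right
    have := linked_neg hR (linked_symm h)
    rwa [neg_neg] at this

theorem rel8_neg {R : Set ℂ} (hR : ∀ u ∈ R, -u ∈ R) {u v : ℂ} (h : rel8 R u v) : rel8 R (-u) v := by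
  rcases h with h | h
  · exact Or.inr (linked_neg hR h)
  · left
    have := linked_neg hR h
    rwa [neg_neg] at this

theorem rel8_self {R : Set ℂ} (hR : ∀ u ∈ R, -u ∈ R) {u : ℂ} (hu : u ∈ R) (h0 : u ≠ 0) :
    rel8 R u u := by
  left
  refine ⟨2, ![u, -u], by norm_num, ?_, ?_, ?_, ⟨0, rfl⟩, ⟨0, rfl⟩⟩
  · intro i
    fin_cases i
    · exact hu
    · exact hR u hu
  · rw [Fin.sum_univ_two]
    simp
  · intro J hJ hJu h
    have h1 : ∑ i ∈ J, ![u, -u] i = ∑ i : Fin 2, if i ∈ J then ![u, -u] i else 0 := by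
      rw [sum_ite_mem, univ_inter]
    rw [h1, Fin.sum_univ_two] at h
    simp only [Matrix.cons_val_zero, Matrix.cons_val_one] at h
    by_cases h2 : (0 : Fin 2) ∈ J
    · by_cases h3 : (1 : Fin 2) ∈ J
      · apply hJu
        ext i
        fin_cases i
        · simp [h2]
        · simp [h3]
      · rw [if_pos h2, if_neg h3, add_zero] at h
        exact h0 h
    · by_cases h3 : (1 : Fin 2) ∈ J
      · rw [if_neg h2, if_pos h3, zero_add, neg_eq_zero] at h
        exact h0 h
      · obtain ⟨i, hi⟩ := hJ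
        fin_cases i
        · exact h2 hi
        · exact h3 hi

theorem linked_of_min {R : Set ℂ} {ι : Type} [DecidableEq ι] (I : Finset ι) (f : ι → ℂ)
    (hcard : I.card ≤ 8) (hf : ∀ i ∈ I, f i ∈ R) (h0 : ∑ i ∈ I, f i = 0)
    (hmin : ∀ J ⊂ I, J.Nonempty → ∑ i ∈ J, f i ≠ 0) (i : ι) (hi : i ∈ I) (j : ι) (hj : j ∈ I) :
    Linked R (f i) (f j) := by
  classical
  set e : Fin I.card ≃ I := I.equivFin.symm with he
  refine ⟨I.card, fun l => f (e l), hcard, fun l => hf _ (e l).2, ?_, ?_, ?_, ?_⟩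
  · rw [Equiv.sum_comp e (fun x : I => f x), ← h0]
    exact sum_coe_sort I f
  · intro J hJ hJu h
    set J' : Finset ι := J.image (fun l => (e l : ι)) with hJ'
    have hinj : Function.Injective (fun l => (e l : ι)) :=
      Subtype.val_injective.comp e.injective
    have h1 : ∑ i ∈ J', f i = 0 := by
      rw [hJ', sum_image (fun a _ b _ hab => hinj hab)]
      exact h
    have h2 : J' ⊆ I := by
      intro x hx
      obtain ⟨l, _, rfl⟩ := mem_image.1 hx
      exact (e l).2
    have h3 : J' ≠ I := by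
      intro h4
      apply hJu
      apply eq_univ_of_card
      rw [Fintype.card_fin]
      have h5 := congrArg card h4
      rw [hJ', card_image_of_injective _ hinj] at h5
      exact h5
    exact hmin J' (Finset.ssubset_iff_subset_ne.2 ⟨h2, h3⟩) (hJ.image _) h1
  · exact ⟨e.symm ⟨i, hi⟩, by simp⟩
  · exact ⟨e.symm ⟨j, hj⟩, by simp⟩

theorem busy_neg (P : Finset ℂ) (b : ℕ) {u : ℂ} (hu : u ∈ busyRadii P b) : -u ∈ busyRadii P b := by
  obtain ⟨h1, h2⟩ := hu
  refine ⟨radii_neg P h1, ?_⟩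
  refine lt_of_lt_of_le h2 (Set.ncard_le_ncard ?_ ?_)
  · rintro v ⟨hv, hr⟩
    exact ⟨hv, rel8_neg (fun w hw => radii_neg P hw) hr⟩
  · exact (radii_finite P).subset fun v hv => hv.1

theorem quiet_sys (P : Finset ℂ) (b : ℕ) :
    DirSys (radii P \ busyRadii P b) (rel8 (radii P)) b where
  neg_mem := fun u hu => ⟨radii_neg P hu.1, fun h => hu.2 (by
    have := busy_neg P b h
    rwa [neg_neg] at this)⟩
  zero_not := by
    rintro ⟨h, _⟩
    have := radii_norm P h
    rw [norm_zero] at this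
    exact zero_ne_one this
  refl := by
    intro u hu
    refine rel8_self (fun w hw => radii_neg P hw) hu.1 ?_
    rintro rfl
    have := radii_norm P hu.1
    rw [norm_zero] at this
    exact zero_ne_one this
  symm := fun u v h => rel8_symm (fun w hw => radii_neg P hw) h
  negl := fun u v h => rel8_neg (fun w hw => radii_neg P hw) h
  fin := by
    intro u hu
    have hfin : {v ∈ radii P | Linked (radii P) u v ∨ Linked (radii P) u (-v)}.Finite :=
      (radii_finite P).subset fun v hv => hv.1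
    refine ⟨hfin.toFinset, ?_, ?_⟩
    · rw [← Set.ncard_eq_toFinset_card _ hfin]
      by_contra hcon
      exact hu.2 ⟨hu.1, not_le.1 hcon⟩
    · intro v hv hr
      rw [Set.Finite.mem_toFinset]
      exact ⟨hv.1, hr⟩
  min := by
    intro ι _ I f hcard hf h0 hmin i hi j hj
    exact Or.inl (linked_of_min I f hcard (fun i hi => (hf i hi).1) h0 hmin i hi j hj)

/-- the main inequality -/
theorem short (P : Finset ℂ) (b : ℕ) :
    ((unitCentres P).ncard : ℝ) ≤ 144 * (b : ℝ) ^ 4 * (P.card : ℝ) ^ (3 / 2 : ℝ) +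
      ((busyRadii P b).ncard : ℝ) * P.card := by
  classical
  have hup := centres_le (quiet_sys P b) P
  have hbf : (busyRadii P b).Finite := (radii_finite P).subset fun v hv => hv.1
  have h1 : unitCentres P ⊆ centres (radii P \ busyRadii P b) P ∪
      ((fun z : ℂ × ℂ => z.2 - z.1) '' (busyRadii P b ×ˢ (P : Set ℂ))) := by
    intro q hq
    by_cases hex : ∃ p ∈ P, p - q ∈ busyRadii P b
    · obtain ⟨p, hp, hpq⟩ := hex
      right
      exact ⟨(p - q, p), ⟨hpq, hp⟩, by simp⟩
    · left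
      push Not at hex
      have hq' := hq
      rw [unitCentres, centres, Set.mem_ofPred_eq] at hq'
      rw [centres, Set.mem_ofPred_eq]
      refine hq'.trans (Set.ncard_le_ncard ?_ (P.finite_toSet.subset fun p hp => hp.1))
      rintro p ⟨hp, hpq⟩
      exact ⟨hp, ⟨q, hq, p, hp, hpq, Or.inl rfl⟩, hex p hp⟩
  have h2 : (unitCentres P).ncard ≤ (centres (radii P \ busyRadii P b) P).ncard +
      (busyRadii P b).ncard * P.card := by
    refine (Set.ncard_le_ncard h1 (hup.1.union ((hbf.prod P.finite_toSet).image _))).trans ?_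
    refine (Set.ncard_union_le _ _).trans ?_
    gcongr
    refine (Set.ncard_image_le (hbf.prod P.finite_toSet)).trans ?_
    rw [Set.ncard_prod, Set.ncard_coe_finset]
  have h3 : ((unitCentres P).ncard : ℝ) ≤ ((centres (radii P \ busyRadii P b) P).ncard : ℝ) +
      ((busyRadii P b).ncard : ℝ) * P.card := by exact_mod_cast h2
  linarith [hup.2]

end UCR
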